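import Pool.Agent.SYS.CF.Inp

/-!
# SYSS-CF-Cnt: number of pairs (triangulation, targets) with a chain, for large `n`

PLAN.  `pol_ev`: polynomial in `log n` (`GG K Pm V1 d J = (J * ((1 + K) * (1 + Pm) * (1 + Pm * V1))) ^ (d + 1)`), so `≤ n ^ ε` for large `n` (`isLittleO_log_rpow_atTop`; compare the private
lemma `ip_pow` of `TC/Inp`); it is enough to bound `1 + Pm * V1 * GG ≤ C (1 + a log n) ^ 20`.
`cnt_ev`: `inp_ev` with `ε / 2`, `pol_ev` with `ε / 2` (`d = τ + 1 - c ≤ 3`), `CH.count`.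
-/

namespace SYS.CF

open Classical SST SYS.CH SYS.CE

private theorem log_pow_ev (θ C : ℝ) {ε : ℝ} (hε : 0 < ε) (τ : ℕ) :
    ∀ᶠ q in Num.Fth θ, C * Real.log ((q : ℕ × ℕ).1 : ℝ) ^ τ ≤ (q.1 : ℝ) ^ ε := by
  have h1 : Filter.Tendsto (fun q : ℕ × ℕ => (q.1 : ℝ)) (Num.Fth θ) Filter.atTop := RB.fst_atTop θ
  have h2 : (fun y : ℝ => Real.log y ^ τ) =o[Filter.atTop] fun y => y ^ ε := by
    have h3 := isLittleO_log_rpow_rpow_atTop (τ : ℝ) hε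
    refine h3.congr' ?_ (Filter.EventuallyEq.refl _ _)
    filter_upwards with y
    rw [Real.rpow_natCast]
  have h3 := (h2.comp_tendsto h1).def (c := 1 / (|C| + 1)) (by positivity)
  filter_upwards [h3, RB.ge_ev θ 1] with q hq hn
  have hn1 : (1 : ℝ) ≤ q.1 := by exact_mod_cast hn
  have hl : 0 ≤ Real.log (q.1 : ℝ) := Real.log_nonneg hn1
  have hp : 0 ≤ (q.1 : ℝ) ^ ε := Real.rpow_nonneg (by linarith) ε
  have h4 : Real.log (q.1 : ℝ) ^ τ ≤ 1 / (|C| + 1) * (q.1 : ℝ) ^ ε := by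
    have h5 : ‖Real.log (q.1 : ℝ) ^ τ‖ ≤ 1 / (|C| + 1) * ‖(q.1 : ℝ) ^ ε‖ := hq
    rw [Real.norm_of_nonneg (pow_nonneg hl τ), Real.norm_of_nonneg hp] at h5
    exact h5
  calc C * Real.log (q.1 : ℝ) ^ τ ≤ |C| * Real.log (q.1 : ℝ) ^ τ :=
        mul_le_mul_of_nonneg_right (le_abs_self C) (by positivity)
    _ ≤ |C| * (1 / (|C| + 1) * (q.1 : ℝ) ^ ε) := mul_le_mul_of_nonneg_left h4 (abs_nonneg C)
    _ = |C| / (|C| + 1) * (q.1 : ℝ) ^ ε := by ring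
    _ ≤ 1 * (q.1 : ℝ) ^ ε := by
        refine mul_le_mul_of_nonneg_right ?_ hp
        rw [div_le_one (by positivity)]
        linarith
    _ = (q.1 : ℝ) ^ ε := one_mul _

theorem pol_ev (θ : ℝ) (K : ℕ) {V1 : ℝ} (hV : 1 ≤ V1) (a : ℝ) {ε : ℝ} (hε : 0 < ε) : ∀ᶠ q in Num.Fth θ, ∀ Pm J d : ℕ,
    (Pm : ℝ) ≤ a * Real.log (q : ℕ × ℕ).1 → (J : ℝ) ≤ a * Real.log q.1 → d ≤ 3 →
    1 + Pm * V1 * GG K Pm V1 d J ≤ (q.1 : ℝ) ^ ε := by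
  obtain ⟨D, hD⟩ : ∃ D : ℝ, D = (1 + |a|) * ((1 + K) * (1 + |a|) * (1 + |a| * V1)) := ⟨_, rfl⟩
  have hV0 : 0 ≤ V1 := by linarith
  have ha := abs_nonneg a
  have haV : 0 ≤ |a| * V1 := mul_nonneg ha hV0
  have hK0 : (0 : ℝ) ≤ K := Nat.cast_nonneg K
  have hD1 : 1 ≤ D := by
    rw [hD]
    have e1 : 1 ≤ 1 + |a| := by linarith
    have e2 : 1 ≤ (1 + (K : ℝ)) * (1 + |a|) := by nlinarith
    have e3 : 1 ≤ (1 + (K : ℝ)) * (1 + |a|) * (1 + |a| * V1) := by nlinarith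
    nlinarith
  filter_upwards [log_pow_ev θ (1 + |a| * V1 * D ^ 4) hε 13, RB.ge_ev θ 3] with q hq hn
  intro Pm J d hPm hJ hd
  have hn3 : (3 : ℝ) ≤ q.1 := by exact_mod_cast hn
  obtain ⟨u, hu⟩ : ∃ u : ℝ, u = Real.log q.1 := ⟨_, rfl⟩
  have hu1 : 1 ≤ u := by
    rw [hu, Real.le_log_iff_exp_le (by linarith)]
    have := Real.exp_one_lt_d9
    linarith
  rw [← hu] at hPm hJ hq
  have hPm' : (Pm : ℝ) ≤ |a| * u := hPm.trans (mul_le_mul_of_nonneg_right (le_abs_self a) (by linarith))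
  have hJ' : (J : ℝ) ≤ |a| * u := hJ.trans (mul_le_mul_of_nonneg_right (le_abs_self a) (by linarith))
  have hP0 : (0 : ℝ) ≤ Pm := Nat.cast_nonneg _
  have hJ0 : (0 : ℝ) ≤ J := Nat.cast_nonneg _
  have hu0 : 0 ≤ u := by linarith
  have e1 : 1 + (Pm : ℝ) ≤ (1 + |a|) * u := by nlinarith
  have e2 : 1 + (Pm : ℝ) * V1 ≤ (1 + |a| * V1) * u := by
    have : (Pm : ℝ) * V1 ≤ |a| * u * V1 := mul_le_mul_of_nonneg_right hPm' hV0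
    nlinarith
  have e3 : (J : ℝ) ≤ (1 + |a|) * u := by nlinarith
  have e4 : (J : ℝ) * ((1 + K) * (1 + Pm) * (1 + Pm * V1)) ≤ D * u ^ 3 := by
    have h1 : (1 + (K : ℝ)) * (1 + Pm) * (1 + Pm * V1) ≤
        (1 + K) * ((1 + |a|) * u) * ((1 + |a| * V1) * u) := by
      apply mul_le_mul _ e2 (by positivity) (by positivity)
      exact mul_le_mul_of_nonneg_left e1 (by positivity)
    calc (J : ℝ) * ((1 + K) * (1 + Pm) * (1 + Pm * V1)) ≤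
        ((1 + |a|) * u) * ((1 + K) * ((1 + |a|) * u) * ((1 + |a| * V1) * u)) :=
          mul_le_mul e3 h1 (by positivity) (by positivity)
      _ = D * u ^ 3 := by
          rw [hD]
          ring
  have hDu : 1 ≤ D * u ^ 3 := by
    have : 1 ≤ u ^ 3 := one_le_pow₀ hu1
    nlinarith
  have e5 : GG K Pm V1 d J ≤ (D * u ^ 3) ^ 4 := by
    unfold GG
    calc ((J : ℝ) * ((1 + K) * (1 + Pm) * (1 + Pm * V1))) ^ (d + 1) ≤ (D * u ^ 3) ^ (d + 1) :=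
          pow_le_pow_left₀ (by positivity) e4 _
      _ ≤ (D * u ^ 3) ^ 4 := pow_le_pow_right₀ hDu (by omega)
  have e6 : (Pm : ℝ) * V1 ≤ |a| * V1 * u := by
    have : (Pm : ℝ) * V1 ≤ |a| * u * V1 := mul_le_mul_of_nonneg_right hPm' hV0
    linarith
  have e7 : (Pm : ℝ) * V1 * GG K Pm V1 d J ≤ (|a| * V1 * u) * (D * u ^ 3) ^ 4 := by
    have hG := gg_nonneg (K := K) (Pm := Pm) hV d J
    exact mul_le_mul e6 e5 hG (by positivity)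
  have e8 : (1 : ℝ) ≤ u ^ 13 := one_le_pow₀ hu1
  calc 1 + (Pm : ℝ) * V1 * GG K Pm V1 d J ≤ u ^ 13 + (|a| * V1 * u) * (D * u ^ 3) ^ 4 := add_le_add e8 e7
    _ = (1 + |a| * V1 * D ^ 4) * u ^ 13 := by ring
    _ ≤ (q.1 : ℝ) ^ ε := hq

theorem cnt_ev {θ x : ℝ} (h : Num.Par θ x) {μ κ V1 δ : ℝ} {B : Blk} {M Q A : ℕ → ℕ} {V : ℕ → ℝ}
    (hC : Cst θ x μ κ V1 δ B M Q A V) {τ : ℕ} (hτ : τ ≤ 2) (a : ℝ) {ε : ℝ} (hε : 0 < ε) : ∀ᶠ q in Num.Fth θ,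
      ∀ Pm Vm J c : ℕ, (Pm : ℝ) ≤ a * Real.log (q : ℕ × ℕ).1 → (Vm : ℝ) ≤ a * Real.log q.1 → (J : ℝ) ≤ a * Real.log q.1 → c ≤ 1 →
      ∀ 𝒳 : Finset (Part (Fin (6 * q.1))), (∀ X ∈ 𝒳, (∃ F, Sc c X F) ∧ X.B.ncard + B.K * J ≤ Pm) → ∀ b : ℝ, 0 ≤ b →
      (({r : Tri (Fin (6 * q.1)) × (Fin τ → Fin (6 * q.1)) | Gd q.2 Pm Vm r.1 ∧ ∃ X ∈ 𝒳, X.Le r.1 ∧ X.HConn r.1 ∧
        (Gl r.2 c X ∨ ∃ f ∈ X.B, ∃ v ≤ b, Ch B (prg M Q) r.2 r.1 J c τ v X f)}.ncard : ℕ) : ℝ) ≤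
        Real.exp (κ * b) * (q.1 : ℝ) ^ ((τ : ℝ) - 1 + ε) * SST.nu q.1 q.2 * ∑ X ∈ 𝒳, Wt x X := by
  have hV1 : 1 ≤ V1 := (hC.v1 0).1.trans (hC.v1 0).2
  filter_upwards [inp_ev h hC τ a (show 0 < ε / 2 by positivity),
    pol_ev θ B.K hV1 a (show 0 < ε / 2 by positivity), RB.ge_ev θ 1] with q h1 h2 h3
  intro Pm Vm J c hPm hVm hJ hc 𝒳 h𝒳 b hb
  have hn1 : (1 : ℝ) ≤ q.1 := by exact_mod_cast h3
  have hn0 : (0 : ℝ) < q.1 := by linarith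
  have hpr : ∀ p, 0 ≤ prg M Q p := fun p => hC.dl.le.trans (hC.pr p)
  have e1 := count (h1 Pm Vm hPm hVm) h.2.2.1 hC.ka hpr hC.ok J c hc 𝒳 h𝒳 b hb
  have e2 := h2 Pm J (τ + 1 - c) hPm hJ (by omega)
  have hN : 0 ≤ SST.nu q.1 q.2 := RB.nu_nn _ _
  have hW : 0 ≤ ∑ X ∈ 𝒳, Wt x X := Finset.sum_nonneg fun X _ => (wt_pos h.2.2.1 X).le
  have hp : (q.1 : ℝ) ^ (ε / 2) * (q.1 : ℝ) ^ ((τ : ℝ) - 1 + ε / 2) = (q.1 : ℝ) ^ ((τ : ℝ) - 1 + ε) := by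
    rw [← Real.rpow_add hn0]
    congr 1
    ring
  have hp0 : 0 ≤ (q.1 : ℝ) ^ ((τ : ℝ) - 1 + ε / 2) := Real.rpow_nonneg hn0.le _
  refine e1.trans ?_
  rw [mul_assoc (Real.exp (κ * b)), mul_assoc (Real.exp (κ * b))]
  refine mul_le_mul_of_nonneg_left ?_ (Real.exp_pos _).le
  refine mul_le_mul_of_nonneg_right ?_ hW
  calc (1 + (Pm : ℝ) * V1 * GG B.K Pm V1 (τ + 1 - c) J) * ((q.1 : ℝ) ^ ((τ : ℝ) - 1 + ε / 2) * SST.nu q.1 q.2)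
      ≤ (q.1 : ℝ) ^ (ε / 2) * ((q.1 : ℝ) ^ ((τ : ℝ) - 1 + ε / 2) * SST.nu q.1 q.2) :=
        mul_le_mul_of_nonneg_right e2 (mul_nonneg hp0 hN)
    _ = (q.1 : ℝ) ^ ((τ : ℝ) - 1 + ε) * SST.nu q.1 q.2 := by
        rw [← mul_assoc, hp]

end SYS.CF
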