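import Pool.Agent.SYS.CF.Defs

/-!
# SYSS-CF-Det: chains from a single face

`fc0 n y`: the single faces with the first dart `y`.

PLAN.  `fc0_mem`: members of `ST.S0 n` with second component `y`.  `fc0_sum`: `∑ y, ∑ X ∈ fc0 n y, Wt x X` is a sum over `ST.S0 n` (`Finset.sum_fiberwise`-type: the map
`(X, y) ↦ y`), at most `Ws x 0 (S0 n)`; `ST.s0_sum` with `c = 0`.
`det`: the face of `y` in `T`: `X = emp.newTri y (T.f y) (T.f (T.f y)) ..` (`T.fne`, `T.fff`), `Le` by `newTri_le` (`emp_le`), `HConn` by `Part.hconn_one` (one hole: `newTri_B`, the three darts are in one cycle: `Sc 0 X _` by `ST.s0_sc`: `HL [e]`), `y ∈ X.R` by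
`newTri_R`.  If `Gl m 0 X` fails: `CE.low` with `c = 0` (`Y ∩ X.R ∋ y`); the progress bound `|bdy T Y| + μ (|Y| / 3) + 64 (Q 0 + 2) ≤ L + μ A' + 64 (Q 0 + 2) = bnd Q μ L A'` (`0 < μ`: `PG.Pm.mu`).
-/

namespace SYS.CF

open Classical SST SYS.CH SYS.CE

/-- The single faces with the first dart `y`. -/
noncomputable def fc0 (n : ℕ) (y : Fin (6 * n)) : Finset (Part (Fin (6 * n))) :=
  ((ST.S0 n).filter fun q => q.2 = y).image Prod.fst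

theorem fc0_mem {n : ℕ} (hn : 1 ≤ n) {y : Fin (6 * n)} {X : Part (Fin (6 * n))} (hX : X ∈ fc0 n y) :
    (∃ F, Sc 0 X F) ∧ X.B.ncard = 3 ∧ y ∈ X.R := by
  unfold fc0 at hX
  obtain ⟨q, hq, rfl⟩ := Finset.mem_image.1 hX
  obtain ⟨hq1, hq2⟩ := Finset.mem_filter.1 hq
  obtain ⟨h1, h2, h3, -, -⟩ := ST.s0_sc hn hq1
  exact ⟨⟨_, h1⟩, h3, hq2 ▸ h2.1⟩

theorem fc0_sum {n : ℕ} (hn : 1 ≤ n) {x : ℝ} (hx : 0 < x) :
    ∑ y : Fin (6 * n), ∑ X ∈ fc0 n y, Wt x X ≤ Num.AA x ^ 3 / Num.yy x * (6 * n).factorial := by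
  have h0 := ST.s0_sum (c := 0) hn hx
  rw [mul_zero, Real.exp_zero, mul_one] at h0
  refine le_trans ?_ h0
  have h1 : ∀ y : Fin (6 * n), ∑ X ∈ fc0 n y, Wt x X ≤
      ∑ q ∈ (ST.S0 n).filter fun q => q.2 = y, Wt x q.1 := by
    intro y
    exact Finset.sum_image_le_of_nonneg fun q _ => (wt_pos hx q).le
  refine (Finset.sum_le_sum fun y _ => h1 y).trans ?_
  rw [Finset.sum_fiberwise (ST.S0 n) (fun q => q.2) (fun q => Wt x q.1)]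
  unfold ST.Ws
  refine Finset.sum_le_sum fun q _ => ?_
  rw [zero_mul, Real.exp_zero, mul_one]

private theorem det_aux {θ x μ κ V1 δ : ℝ} {B : Blk} {M Q A : ℕ → ℕ} {V : ℕ → ℝ} (hC : Cst θ x μ κ V1 δ B M Q A V) {n g τ : ℕ}
    (hg : 1 ≤ g) (hτ : τ ≤ 2) {T : Tri (Fin (6 * n))} (hT : T ∈ Trn n g) {m : Fin τ → Fin (6 * n)} {Y : Set (Fin (6 * n))}
    (hF : XP.Fs T Y) (hD : XP.DC T Y) (hm : ∀ i, m i ∈ Y) (hr : 2 - τ ≤ CO.rk T (CO.ins T Y)) {L A' : ℝ}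
    (hL : ((XP.bdy T Y).ncard : ℝ) ≤ L) (hA : (Y.ncard : ℝ) ≤ A') {J : ℕ} (hJ : bnd Q μ L A' + 3 * δ ≤ δ * (J - 1))
    {c F : ℕ} (hc : c ≤ 1) {X : Part (Fin (6 * n))} (hX : Sc c X F) (hXL : X.Le T) (hXH : X.HConn T) (hne : (Y ∩ X.R).Nonempty) :
    Gl m c X ∨ ∃ f ∈ X.B, ∃ v ≤ bnd Q μ L A', Ch B (prg M Q) m T J c τ v X f := by
  by_cases hG : Gl m c X
  · exact Or.inl hG
  right
  have hμ : 0 < μ := (hC.pm 0).mu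
  have h0 : (0 : ℝ) ≤ (Y.ncard : ℝ) := Nat.cast_nonneg _
  have h1 : ((XP.bdy T Y).ncard : ℝ) + μ * (Y.ncard / 3) + 64 * (Q 0 + 2) ≤ bnd Q μ L A' := by
    unfold bnd
    have h2 : (Y.ncard : ℝ) / 3 ≤ A' := by linarith
    have h3 := mul_le_mul_of_nonneg_left h2 hμ.le
    linarith
  obtain ⟨f, hf, v, hv, hch⟩ := low hC.ok hC.bin hT hg hτ hC.pm hC.dl hC.pr hc hX hXL hXH hG hF hD hne hm hr
    (J := J) (by linarith)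
  exact ⟨f, hf, v, hv.trans h1, hch⟩

theorem det {θ x μ κ V1 δ : ℝ} {B : Blk} {M Q A : ℕ → ℕ} {V : ℕ → ℝ} (hC : Cst θ x μ κ V1 δ B M Q A V) {n g τ : ℕ} (hn : 1 ≤ n)
    (hg : 1 ≤ g) (hτ : τ ≤ 2) {T : Tri (Fin (6 * n))} (hT : T ∈ Trn n g) {m : Fin τ → Fin (6 * n)} {Y : Set (Fin (6 * n))}
    (hF : XP.Fs T Y) (hD : XP.DC T Y) {y : Fin (6 * n)} (hy : y ∈ Y) (hm : ∀ i, m i ∈ Y) (hr : 2 - τ ≤ CO.rk T (CO.ins T Y)) {L A' : ℝ}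
    (hL : ((XP.bdy T Y).ncard : ℝ) ≤ L) (hA : (Y.ncard : ℝ) ≤ A') {J : ℕ} (hJ : bnd Q μ L A' + 3 * δ ≤ δ * (J - 1)) :
    ∃ X ∈ fc0 n y, X.Le T ∧ X.HConn T ∧ (Gl m 0 X ∨ ∃ f ∈ X.B, ∃ v ≤ bnd Q μ L A', Ch B (prg M Q) m T J 0 τ v X f) := by
  have hnR : ∀ d : Fin (6 * n), d ∉ (Part.emp : Part (Fin (6 * n))).R := fun d hd => hd rfl
  have h01 : y ≠ T.f y := (T.fne y).symm
  have h12 : T.f y ≠ T.f (T.f y) := (T.fne _).symm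
  have h20 : T.f (T.f y) ≠ y := by
    intro h
    have h1 := T.fff y
    rw [h] at h1
    exact T.fne y h1
  set X : Part (Fin (6 * n)) := Part.emp.newTri y (T.f y) (T.f (T.f y)) (hnR _) (hnR _) (hnR _) h01 h12 h20 with hXdef
  have hS0 : (X, y) ∈ ST.S0 n := ST.mem_S0.2 ⟨T.f y, T.f (T.f y), hnR _, hnR _, hnR _, h01, h12, h20, rfl⟩
  have hfc : X ∈ fc0 n y := by
    unfold fc0
    exact Finset.mem_image.2 ⟨(X, y), Finset.mem_filter.2 ⟨hS0, rfl⟩, rfl⟩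
  have hLe : X.Le T := Part.newTri_le _ _ _ _ _ _ _ (Part.emp_le T) rfl rfl
  obtain ⟨hSc, hyB, -, -, -⟩ := ST.s0_sc hn hS0
  have hH : X.HConn T := by
    refine Part.hconn_one hLe hT.1 hyB fun d hd => ?_
    rw [Part.mem_hw _ hyB]
    refine ⟨hd, ?_⟩
    obtain ⟨-, l, P, hTyp, hlen⟩ := hSc
    obtain ⟨e, rfl⟩ := List.length_eq_one_iff.1 hlen
    obtain ⟨e1, he1, h1⟩ := hTyp.hl.2.2 y hyB
    obtain ⟨e2, he2, h2⟩ := hTyp.hl.2.2 d hd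
    rw [List.mem_singleton] at he1 he2
    subst he1
    subst he2
    exact h1.symm.trans h2
  exact ⟨X, hfc, hLe, hH, det_aux hC hg hτ hT hF hD hm hr hL hA hJ (Nat.zero_le 1) hSc hLe hH ⟨y, hy, hyB.1⟩⟩

/-- The same for a start region which meets `Y`. -/
theorem detX {θ x μ κ V1 δ : ℝ} {B : Blk} {M Q A : ℕ → ℕ} {V : ℕ → ℝ} (hC : Cst θ x μ κ V1 δ B M Q A V) {n g τ : ℕ}
    (hg : 1 ≤ g) (hτ : τ ≤ 2) {T : Tri (Fin (6 * n))} (hT : T ∈ Trn n g) {m : Fin τ → Fin (6 * n)} {Y : Set (Fin (6 * n))}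
    (hF : XP.Fs T Y) (hD : XP.DC T Y) (hm : ∀ i, m i ∈ Y) (hr : 2 - τ ≤ CO.rk T (CO.ins T Y)) {L A' : ℝ}
    (hL : ((XP.bdy T Y).ncard : ℝ) ≤ L) (hA : (Y.ncard : ℝ) ≤ A') {J : ℕ} (hJ : bnd Q μ L A' + 3 * δ ≤ δ * (J - 1))
    {c F : ℕ} (hc : c ≤ 1) {X : Part (Fin (6 * n))} (hX : Sc c X F) (hXL : X.Le T) (hXH : X.HConn T) (hne : (Y ∩ X.R).Nonempty) :
    Gl m c X ∨ ∃ f ∈ X.B, ∃ v ≤ bnd Q μ L A', Ch B (prg M Q) m T J c τ v X f :=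
  det_aux hC hg hτ hT hF hD hm hr hL hA hJ hc hX hXL hXH hne

end SYS.CF
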