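import Pool.Agent.SYS.CF.Win
import Pool.Agent.SYS.GS.Frc
import Pool.Agent.SYS.CF.Cnt
import Pool.Agent.SYS.CF.Det
import Pool.Agent.SYS.SW.Main

/-!
# SYSS-CF-B1: the lower bound

PLAN.  `pss_eq`: `PSS c (n, g) = #{T ∈ Trn n g | T.HasSSC (c log n)} / #Trn n g` for `1 ≤ n` (see `ratio_eq` in `US/Up3` or `UP/MainF`: copy the use there).
`b1`: let `ε = (1 - κ (s + μ C1)) / 4 > 0`, `L = s log n`, `A' = C1 log n`, `b = bnd Q μ L A'`, `J = ⌈(b + 3 δ) / δ⌉ + 2`, `Pm = 3 + B.K * J`, `Vm = ⌈C' log n⌉` with `C'` of `gd_ev` (for the constant `a0` with `Pm ≤ a0 log n`);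
all `≤ a log n` for large `n`.  A triangulation `T ∈ Trn n g` with `HasSSC (s log n)` is in one of the sets: not `ArS T (S log n) (C1 log n)` (`Area`: at most `#Trn / n`); not `Gd` (`gd_ev`: at most `#Trn / n`); or, by `ssc_face` (use `ArS` with `L = S log n`; `HasSSC` and the conclusion of `ssc_face` are for `s log n ≤ S log n`:
`ssc_cut` for `s log n`, then `ar1` of `ArS T (S log n) _` as in the proof of `ssc_face`; or restate with `max`), `det` with `τ = 0`, `m = Fin.elim0` and any `y ∈ Y` (`Y` is not empty: rank `≥ 2`, or `Cut2.ne`): there are `y` and `X ∈ fc0 n y` with a chain.  Use `cnt_ev` with `τ = 0` for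
`𝒳 = ⋃ y, fc0 n y` (`Finset.univ.biUnion`; the sum is at most `∑ y ∑ X`), the pairs `(T, m)`, `m : Fin 0 → _`, are as many as the `T`.  Result: at most `exp (κ b) n ^ (-1 + ε) nu C (6 n)! = C' n ^ (κ (s + μ C1) - 1 + ε) #Trn` (`SST.nu n g * (6 n)! = #Trn`), which is `≤ n ^ (- 2 ε) C'' #Trn`.
-/

namespace SYS.CF

open Classical SST SYS.CH SYS.CE Filter Topology

theorem pss_eq {n g : ℕ} (hn : 1 ≤ n) (c : ℝ) : PSS c (n, g) =
    (({T : Tri (Fin (6 * n)) | T ∈ Trn n g ∧ T.HasSSC (c * Real.log n)}.ncard : ℕ) : ℝ) / ((Trn n g).ncard : ℕ) :=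
  GS.frac_ssc hn _

/-- Short simple separating essential cycles give connected sets of faces of rank at least two. -/
private theorem b1_face {n : ℕ} {T : Tri (Fin (6 * n))} (hT : T.Conn) {L L' A : ℝ} (hA : ArS T L' A) (hL : L ≤ L') (h : T.HasSSC L) :
    ∃ Y : Set (Fin (6 * n)), XP.Cut2 T Y ∧ ((XP.bdy T Y).ncard : ℝ) ≤ L ∧ (Y.ncard : ℝ) ≤ A ∧ 2 ≤ CO.rk T (CO.ins T Y) := by
  obtain ⟨Y, hY, hb, h1, h2⟩ := ssc_cut hT h
  rcases hA.ar1 Y hY (hb.trans hL) with h3 | h3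
  · exact ⟨Y, hY, hb, h3, h1⟩
  · refine ⟨Yᶜ, XP.cut2_compl hY, ?_, h3, h2⟩
    rw [XP.bdy_compl]
    exact hb

private theorem b1_split {n : ℕ} (P Q R : Tri (Fin (6 * n)) → Prop) (E : Set (Tri (Fin (6 * n)))) {N a b c : ℝ}
    (h : ∀ T ∈ E, P T ∨ Q T ∨ R T) (hP : (({T | T ∈ E ∧ P T}.ncard : ℕ) : ℝ) ≤ a) (hQ : (({T | T ∈ E ∧ Q T}.ncard : ℕ) : ℝ) ≤ b)
    (hR : (({T | T ∈ E ∧ R T}.ncard : ℕ) : ℝ) ≤ c) (hN : a + b + c ≤ N) : ((E.ncard : ℕ) : ℝ) ≤ N := by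
  have h1 : E ⊆ {T | T ∈ E ∧ P T} ∪ ({T | T ∈ E ∧ Q T} ∪ {T | T ∈ E ∧ R T}) := by
    intro T hT
    rcases h T hT with h | h | h
    · exact Or.inl ⟨hT, h⟩
    · exact Or.inr (Or.inl ⟨hT, h⟩)
    · exact Or.inr (Or.inr ⟨hT, h⟩)
  have h2 := (Set.ncard_le_ncard h1 (Set.toFinite _)).trans (Set.ncard_union_le _ _)
  have h3 := Set.ncard_union_le {T | T ∈ E ∧ Q T} {T | T ∈ E ∧ R T}
  have h4 : ((E.ncard : ℕ) : ℝ) ≤ ({T | T ∈ E ∧ P T}.ncard : ℕ) + (({T | T ∈ E ∧ Q T}.ncard : ℕ) + ({T | T ∈ E ∧ R T}.ncard : ℕ)) := by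
    exact_mod_cast h2.trans (Nat.add_le_add_left h3 _)
  linarith

/-- Union bound for sums. -/
theorem sum_bU {α β : Type} (s : Finset α) (t : α → Finset β) (f : β → ℝ) (hf : ∀ b, 0 ≤ f b) :
    ∑ b ∈ s.biUnion t, f b ≤ ∑ a ∈ s, ∑ b ∈ t a, f b := by
  induction s using Finset.induction_on with
  | empty => simp
  | insert a s ha ih =>
    rw [Finset.biUnion_insert, Finset.sum_insert ha]
    have h1 := Finset.sum_union_inter (s₁ := t a) (s₂ := s.biUnion t) (f := f)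
    have h2 : 0 ≤ ∑ b ∈ t a ∩ s.biUnion t, f b := Finset.sum_nonneg fun b _ => hf b
    linarith

theorem b1 {θ x : ℝ} (h : Num.Par θ x) {S C1 : ℝ} (hC1 : 0 < C1) (hA : Area θ S C1) {μ κ V1 δ : ℝ} {B : Blk} {M Q A : ℕ → ℕ}
    {V : ℕ → ℝ} (hC : Cst θ x μ κ V1 δ B M Q A V) {s : ℝ} (hs : 0 < s) (hsS : s ≤ S) (hκ : κ * (s + μ * C1) < 1) :
    Tendsto (PSS s) (Num.Fth θ) (𝓝 0) := by
  obtain ⟨ε, hε⟩ : ∃ ε : ℝ, ε = (1 - κ * (s + μ * C1)) / 2 := ⟨_, rfl⟩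
  have hε0 : 0 < ε := by
    rw [hε]
    linarith
  obtain ⟨a, ha, hwin⟩ := win h Q μ s C1 3 hC.dl B.K
  have hcnt := cnt_ev h hC (τ := 0) (by norm_num) a hε0
  obtain ⟨C3, hC3⟩ : ∃ C3 : ℝ, C3 = Num.AA x ^ 3 / Num.yy x := ⟨_, rfl⟩
  obtain ⟨E1, hE1⟩ : ∃ E1 : ℝ, E1 = Real.exp (κ * (64 * ((Q 0 : ℝ) + 2))) := ⟨_, rfl⟩
  have hE1p : 0 < E1 := by
    rw [hE1]
    exact Real.exp_pos _
  have hC3p : 0 ≤ C3 := by
    rw [hC3]
    have h1 := Num.AA_gt x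
    have h2 := Num.yy_pos x
    have h3 : 0 < Num.AA x := by linarith
    positivity
  -- the bound
  have key : ∀ᶠ q in Num.Fth θ, PSS s q ≤ 2 * ((q.1 : ℝ))⁻¹ + E1 * C3 * (q.1 : ℝ) ^ (-ε) := by
    filter_upwards [hA, hwin, hcnt, win_log θ 1, RB.ge_ev θ 1, RB.ge_ev' h.1 1] with q h1 h2 h3 h4 h5 h6
    obtain ⟨J, Pm, Vm, w1, w2, w3, w4, w5, w6⟩ := h2
    have hn0 : (0 : ℝ) < q.1 := by exact_mod_cast h5
    have hn1 : (1 : ℝ) ≤ q.1 := by exact_mod_cast h5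
    obtain ⟨n, g⟩ := q
    dsimp only at h1 h3 h4 h5 h6 w1 w2 w3 w4 w5 w6 hn0 hn1 ⊢
    obtain ⟨N, hN⟩ : ∃ N : ℝ, N = ((Trn n g).ncard : ℕ) := ⟨_, rfl⟩
    have hN0 : 0 ≤ N := by
      rw [hN]
      exact Nat.cast_nonneg _
    rw [pss_eq h5, ← hN]
    have hL0 : 0 ≤ bnd Q μ (s * Real.log n) (C1 * Real.log n) := by
      unfold bnd
      have hmu : 0 < μ := (hC.pm 0).mu
      have : 0 ≤ Real.log (n : ℝ) := by linarith
      positivity
    have hX : ∀ X ∈ (Finset.univ : Finset (Fin (6 * n))).biUnion (fc0 n), (∃ F, Sc 0 X F) ∧ X.B.ncard + B.K * J ≤ Pm := by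
      intro X hX
      obtain ⟨y, -, hy⟩ := Finset.mem_biUnion.1 hX
      obtain ⟨f1, f2, -⟩ := fc0_mem h5 hy
      refine ⟨f1, w2 _ ?_⟩
      rw [f2]
      push_cast
      linarith
    have h7 := h3 Pm Vm J 0 w3 w4 w5 (by norm_num) _ hX _ hL0
    have h8 : ∑ X ∈ (Finset.univ : Finset (Fin (6 * n))).biUnion (fc0 n), Wt x X ≤ C3 * (6 * n).factorial := by
      refine le_trans ?_ (le_trans (fc0_sum h5 h.2.2.1) (by rw [hC3]))
      exact sum_bU _ _ _ fun X => (wt_pos h.2.2.1 X).le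
    have h9 : (({T | T ∈ {T : Tri (Fin (6 * n)) | T ∈ Trn n g ∧ T.HasSSC (s * Real.log n)} ∧
        (Gd g Pm Vm T ∧ ArS T (S * Real.log n) (C1 * Real.log n))}.ncard : ℕ) : ℝ) ≤
        E1 * C3 * (n : ℝ) ^ (-ε) * N := by
      have h10 : {T | T ∈ {T : Tri (Fin (6 * n)) | T ∈ Trn n g ∧ T.HasSSC (s * Real.log n)} ∧
          (Gd g Pm Vm T ∧ ArS T (S * Real.log n) (C1 * Real.log n))}.ncard ≤
          {r : Tri (Fin (6 * n)) × (Fin 0 → Fin (6 * n)) | Gd g Pm Vm r.1 ∧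
            ∃ X ∈ (Finset.univ : Finset (Fin (6 * n))).biUnion (fc0 n), X.Le r.1 ∧ X.HConn r.1 ∧
            (Gl r.2 0 X ∨ ∃ f ∈ X.B, ∃ v ≤ bnd Q μ (s * Real.log n) (C1 * Real.log n),
              Ch B (prg M Q) r.2 r.1 J 0 0 v X f)}.ncard := by
        refine Set.ncard_le_ncard_of_injOn (fun T => (T, Fin.elim0)) ?_ ?_ (Set.toFinite _)
        · rintro T ⟨⟨hT, hSC⟩, hG, hAr⟩
          obtain ⟨Y, y1, y2, y3, y4⟩ := b1_face hT.1 hAr (mul_le_mul_of_nonneg_right hsS (by linarith)) hSC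
          obtain ⟨y, hy⟩ := y1.ne
          obtain ⟨X, x1, x2, x3, x4⟩ := det hC h5 h6 (τ := 0) (by norm_num) hT (m := Fin.elim0) y1.fs y1.dc hy
            (fun i => i.elim0) y4 y2 y3 w1
          exact ⟨hG, X, Finset.mem_biUnion.2 ⟨y, Finset.mem_univ _, x1⟩, x2, x3, x4⟩
        · intro T _ T' _ he
          exact congrArg Prod.fst he
      have h11 : (({r : Tri (Fin (6 * n)) × (Fin 0 → Fin (6 * n)) | Gd g Pm Vm r.1 ∧
            ∃ X ∈ (Finset.univ : Finset (Fin (6 * n))).biUnion (fc0 n), X.Le r.1 ∧ X.HConn r.1 ∧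
            (Gl r.2 0 X ∨ ∃ f ∈ X.B, ∃ v ≤ bnd Q μ (s * Real.log n) (C1 * Real.log n),
              Ch B (prg M Q) r.2 r.1 J 0 0 v X f)}.ncard : ℕ) : ℝ) ≤ E1 * C3 * (n : ℝ) ^ (-ε) * N := by
        refine h7.trans ?_
        rw [win_exp Q κ μ s C1 h5, ← hE1, Nat.cast_zero]
        have e1 : (n : ℝ) ^ (κ * (s + μ * C1)) * (n : ℝ) ^ ((0 : ℝ) - 1 + ε) = (n : ℝ) ^ (-ε) := by
          rw [← Real.rpow_add hn0]
          congr 1
          rw [hε]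
          ring
        have e2 : 0 ≤ SST.nu n g := RB.nu_nn _ _
        have e3 : 0 ≤ (n : ℝ) ^ (-ε) := Real.rpow_nonneg hn0.le _
        calc (n : ℝ) ^ (κ * (s + μ * C1)) * E1 * (n : ℝ) ^ ((0 : ℝ) - 1 + ε) * SST.nu n g *
              ∑ X ∈ (Finset.univ : Finset (Fin (6 * n))).biUnion (fc0 n), Wt x X
            = E1 * ((n : ℝ) ^ (κ * (s + μ * C1)) * (n : ℝ) ^ ((0 : ℝ) - 1 + ε)) * SST.nu n g *
              ∑ X ∈ (Finset.univ : Finset (Fin (6 * n))).biUnion (fc0 n), Wt x X := by ring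
          _ ≤ E1 * (n : ℝ) ^ (-ε) * SST.nu n g * (C3 * (6 * n).factorial) := by
              rw [e1]
              exact mul_le_mul_of_nonneg_left h8 (by positivity)
          _ = E1 * C3 * (n : ℝ) ^ (-ε) * (SST.nu n g * (6 * n).factorial) := by ring
          _ = _ := by rw [win_nu, hN]
      exact le_trans (by exact_mod_cast h10) h11
    have h12 : (({T : Tri (Fin (6 * n)) | T ∈ Trn n g ∧ T.HasSSC (s * Real.log n)}.ncard : ℕ) : ℝ) ≤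
        (2 * ((n : ℝ))⁻¹ + E1 * C3 * (n : ℝ) ^ (-ε)) * N := by
      refine b1_split (fun T => ¬ ArS T (S * Real.log n) (C1 * Real.log n)) (fun T => ¬ Gd g Pm Vm T)
        (fun T => Gd g Pm Vm T ∧ ArS T (S * Real.log n) (C1 * Real.log n)) _ ?_ (a := ((n : ℝ))⁻¹ * N)
        (b := ((n : ℝ))⁻¹ * N) ?_ ?_ h9 ?_
      · intro T _
        by_cases c1 : ArS T (S * Real.log n) (C1 * Real.log n)
        · by_cases c2 : Gd g Pm Vm T
          · exact Or.inr (Or.inr ⟨c2, c1⟩)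
          · exact Or.inr (Or.inl c2)
        · exact Or.inl c1
      · rw [← hN] at h1
        rw [inv_mul_eq_div, le_div_iff₀ hn0, mul_comm]
        refine le_trans (mul_le_mul_of_nonneg_left ?_ hn0.le) h1
        refine Nat.cast_le.2 (Set.ncard_le_ncard ?_ (Set.toFinite _))
        rintro T ⟨hT, hT'⟩
        exact ⟨hT.1, hT'⟩
      · rw [← hN] at w6
        rw [inv_mul_eq_div, le_div_iff₀ hn0, mul_comm]
        refine le_trans (mul_le_mul_of_nonneg_left ?_ hn0.le) w6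
        refine Nat.cast_le.2 (Set.ncard_le_ncard ?_ (Set.toFinite _))
        rintro T ⟨hT, hT'⟩
        exact ⟨hT.1, hT'⟩
      · linarith
    have h13 : 0 ≤ 2 * ((n : ℝ))⁻¹ + E1 * C3 * (n : ℝ) ^ (-ε) := by
      have := Real.rpow_nonneg hn0.le (-ε)
      positivity
    rcases hN0.eq_or_lt with hz | hz
    · rw [← hz, div_zero]
      exact h13
    · rw [div_le_iff₀ hz]
      exact h12
  have hlim : Tendsto (fun q : ℕ × ℕ => 2 * ((q.1 : ℝ))⁻¹ + E1 * C3 * (q.1 : ℝ) ^ (-ε)) (Num.Fth θ) (𝓝 0) := by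
    have h1 : Tendsto (fun q : ℕ × ℕ => ((q.1 : ℝ))⁻¹) (Num.Fth θ) (𝓝 0) := tendsto_inv_atTop_zero.comp (RB.fst_atTop θ)
    have h2 : Tendsto (fun q : ℕ × ℕ => (q.1 : ℝ) ^ (-ε)) (Num.Fth θ) (𝓝 0) := (tendsto_rpow_neg_atTop hε0).comp (RB.fst_atTop θ)
    have h3 := (h1.const_mul 2).add (h2.const_mul (E1 * C3))
    rw [mul_zero, mul_zero, add_zero] at h3
    exact h3
  refine tendsto_of_tendsto_of_tendsto_of_le_of_le' tendsto_const_nhds hlim ?_ key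
  filter_upwards [RB.ge_ev θ 1] with q h5
  obtain ⟨n, g⟩ := q
  rw [pss_eq h5]
  positivity

end SYS.CF
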