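import Pool.Agent.SYS.CF.Defs

/-!
# SYS-CF-Ev: the sizes of the chains are logarithmic

`JJ`, `PP`, `VV`: number of blocks, perimeter, volume for the triangulations with `n` pairs of faces, `L = s log n`, `A' = C1 log n`.
-/

namespace SYS.CF

open Classical SST SYS.CH SYS.CE Filter Topology

theorem ev_log (θ c : ℝ) : ∀ᶠ q in Num.Fth θ, c ≤ Real.log ((q : ℕ × ℕ).1 : ℝ) := by
  have hn1 : Tendsto (fun q : ℕ × ℕ => q.1) (Num.Fth θ) atTop := tendsto_inf_left tendsto_comap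
  exact (Real.tendsto_log_atTop.comp (tendsto_natCast_atTop_atTop.comp hn1)).eventually_ge_atTop c

theorem ev_ge (θ : ℝ) (c : ℕ) : ∀ᶠ q in Num.Fth θ, c ≤ (q : ℕ × ℕ).1 := by
  have hn1 : Tendsto (fun q : ℕ × ℕ => q.1) (Num.Fth θ) atTop := tendsto_inf_left tendsto_comap
  exact hn1.eventually_ge_atTop c

theorem ev_geR (θ c : ℝ) : ∀ᶠ q in Num.Fth θ, c ≤ ((q : ℕ × ℕ).1 : ℝ) := by
  filter_upwards [ev_ge θ ⌈c⌉₊] with q hq
  exact (Nat.le_ceil c).trans (by exact_mod_cast hq)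

/-- `g ≥ 1` eventually. -/
theorem ev_g {θ : ℝ} (hθ : 0 < θ) : ∀ᶠ q in Num.Fth θ, 1 ≤ (q : ℕ × ℕ).2 := by
  have h2 : ∀ᶠ q in Num.Fth θ, |((q : ℕ × ℕ).2 : ℝ) / q.1 - θ| < θ := by
    have hh : Tendsto (fun q : ℕ × ℕ => (q.2 : ℝ) / q.1) (Num.Fth θ) (𝓝 θ) := tendsto_inf_right tendsto_comap
    have := (Metric.tendsto_nhds.1 hh) θ hθ
    simpa [Real.dist_eq] using this
  filter_upwards [h2] with q hq
  by_contra hcon
  have h0 : q.2 = 0 := by omega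
  rw [h0] at hq
  simp at hq
  rw [abs_of_pos hθ] at hq
  exact lt_irrefl _ hq

/-- powers beat constants -/
theorem ev_pow (θ : ℝ) {C η a b : ℝ} (hη : 0 < η) (hab : a < b) : ∀ᶠ q in Num.Fth θ,
    C * ((q : ℕ × ℕ).1 : ℝ) ^ a ≤ η * (q.1 : ℝ) ^ b := by
  have hn1 : Tendsto (fun q : ℕ × ℕ => (q.1 : ℝ)) (Num.Fth θ) atTop :=
    tendsto_natCast_atTop_atTop.comp (tendsto_inf_left tendsto_comap)
  have h1 : Tendsto (fun q : ℕ × ℕ => (q.1 : ℝ) ^ (b - a)) (Num.Fth θ) atTop :=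
    (tendsto_rpow_atTop (by linarith)).comp hn1
  filter_upwards [h1.eventually_ge_atTop (C / η), ev_ge θ 1] with q hq hq1
  have h0 : (0 : ℝ) < q.1 := by exact_mod_cast hq1
  rw [div_le_iff₀ hη] at hq
  have h2 : (q.1 : ℝ) ^ b = (q.1 : ℝ) ^ (b - a) * (q.1 : ℝ) ^ a := by
    rw [← Real.rpow_add h0]
    congr 1
    ring
  rw [h2]
  calc C * (q.1 : ℝ) ^ a ≤ (q.1 : ℝ) ^ (b - a) * η * (q.1 : ℝ) ^ a :=
        mul_le_mul_of_nonneg_right hq (Real.rpow_nonneg h0.le _)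
    _ = η * ((q.1 : ℝ) ^ (b - a) * (q.1 : ℝ) ^ a) := by ring

/-- powers beat logarithms -/
theorem ev_logpow (θ : ℝ) {C D η a b : ℝ} (hη : 0 < η) (hab : a < b) : ∀ᶠ q in Num.Fth θ,
    (C * Real.log ((q : ℕ × ℕ).1 : ℝ) + D) * (q.1 : ℝ) ^ a ≤ η * (q.1 : ℝ) ^ b := by
  have hn1 : Tendsto (fun q : ℕ × ℕ => (q.1 : ℝ)) (Num.Fth θ) atTop :=
    tendsto_natCast_atTop_atTop.comp (tendsto_inf_left tendsto_comap)
  have hlo : (fun y : ℝ => Real.log y) =o[atTop] fun y => y ^ ((b - a) / 2) := isLittleO_log_rpow_atTop (by linarith)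
  have h3 := hn1.eventually (hlo.bound (show (0 : ℝ) < 1 by norm_num))
  filter_upwards [h3, ev_ge θ 1, ev_pow θ (C := |C| + |D|) hη (show a + (b - a) / 2 < b by linarith)] with q hq hq1 hq2
  have h0 : (0 : ℝ) < q.1 := by exact_mod_cast hq1
  have h01 : (1 : ℝ) ≤ q.1 := by exact_mod_cast hq1
  have hp : (1 : ℝ) ≤ (q.1 : ℝ) ^ ((b - a) / 2) := Real.one_le_rpow h01 (by linarith)
  have hl0 : 0 ≤ Real.log (q.1 : ℝ) := Real.log_nonneg h01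
  have hq' : Real.log (q.1 : ℝ) ≤ (q.1 : ℝ) ^ ((b - a) / 2) := by
    have := hq
    rw [Real.norm_of_nonneg hl0, Real.norm_of_nonneg (Real.rpow_nonneg h0.le _)] at this
    linarith
  refine le_trans ?_ hq2
  rw [Real.rpow_add h0]
  have h4 : C * Real.log (q.1 : ℝ) + D ≤ (|C| + |D|) * (q.1 : ℝ) ^ ((b - a) / 2) := by
    have h5 : C * Real.log (q.1 : ℝ) ≤ |C| * (q.1 : ℝ) ^ ((b - a) / 2) :=
      (mul_le_mul_of_nonneg_right (le_abs_self C) hl0).trans (mul_le_mul_of_nonneg_left hq' (abs_nonneg C))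
    have h6 : D ≤ |D| * (q.1 : ℝ) ^ ((b - a) / 2) :=
      (le_abs_self D).trans (le_mul_of_one_le_right (abs_nonneg D) hp)
    linarith
  calc (C * Real.log (q.1 : ℝ) + D) * (q.1 : ℝ) ^ a
      ≤ ((|C| + |D|) * (q.1 : ℝ) ^ ((b - a) / 2)) * (q.1 : ℝ) ^ a :=
        mul_le_mul_of_nonneg_right h4 (Real.rpow_nonneg h0.le _)
    _ = (|C| + |D|) * ((q.1 : ℝ) ^ a * (q.1 : ℝ) ^ ((b - a) / 2)) := by ring

/-- Number of blocks. -/
noncomputable def JJ (Q : ℕ → ℕ) (μ δ s C1 : ℝ) (n : ℕ) : ℕ :=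
  ⌈(bnd Q μ (s * Real.log n) (C1 * Real.log n) + 3 * δ) / δ⌉₊ + 1

theorem jj_ge {Q : ℕ → ℕ} {μ δ s C1 : ℝ} (hδ : 0 < δ) (n : ℕ) :
    bnd Q μ (s * Real.log n) (C1 * Real.log n) + 3 * δ ≤ δ * ((JJ Q μ δ s C1 n : ℕ) - 1) := by
  have h1 := Nat.le_ceil ((bnd Q μ (s * Real.log n) (C1 * Real.log n) + 3 * δ) / δ)
  rw [div_le_iff₀ hδ] at h1
  unfold JJ
  push_cast
  linarith

/-- The number of blocks, perimeter and volume are at most `a log n`. -/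
theorem ev_sz (θ : ℝ) (Q : ℕ → ℕ) {μ δ s C1 : ℝ} (hμ : 0 ≤ μ) (hδ : 0 < δ) (hs : 0 ≤ s) (hC1 : 0 ≤ C1) (K : ℕ) (a1 : ℝ) :
    ∃ a : ℝ, 0 < a ∧ ∀ᶠ q in Num.Fth θ, (JJ Q μ δ s C1 (q : ℕ × ℕ).1 : ℝ) ≤ a * Real.log q.1 ∧
      ∀ bs : ℕ, (bs : ℝ) ≤ a1 * Real.log q.1 → ((bs + K * JJ Q μ δ s C1 q.1 : ℕ) : ℝ) ≤ a * Real.log q.1 := by
  set c0 : ℝ := (64 * ((Q 0 : ℝ) + 2) + 3 * δ) / δ + 2 with hc0
  set aJ : ℝ := (s + μ * C1) / δ + 1 with haJ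
  have h0 : 0 ≤ aJ := by positivity
  refine ⟨aJ + |a1| + K * aJ + 1, by positivity, ?_⟩
  filter_upwards [ev_log θ (max c0 0)] with q hq
  have hl0 : 0 ≤ Real.log (q.1 : ℝ) := (le_max_right _ _).trans hq
  have hlc : c0 ≤ Real.log (q.1 : ℝ) := (le_max_left _ _).trans hq
  have hJ : (JJ Q μ δ s C1 q.1 : ℝ) ≤ aJ * Real.log q.1 := by
    have h1 : 0 ≤ (bnd Q μ (s * Real.log q.1) (C1 * Real.log q.1) + 3 * δ) / δ := by
      unfold bnd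
      positivity
    have h2 := (Nat.ceil_lt_add_one h1).le
    have h3 : (JJ Q μ δ s C1 q.1 : ℝ) = (⌈(bnd Q μ (s * Real.log q.1) (C1 * Real.log q.1) + 3 * δ) / δ⌉₊ : ℝ) + 1 := by
      unfold JJ
      push_cast
      rfl
    rw [h3]
    have h4 : (bnd Q μ (s * Real.log q.1) (C1 * Real.log q.1) + 3 * δ) / δ =
        (s + μ * C1) / δ * Real.log q.1 + (64 * ((Q 0 : ℝ) + 2) + 3 * δ) / δ := by
      unfold bnd
      field_simp
      ring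
    rw [h4] at h2
    rw [haJ]
    rw [hc0] at hlc
    rw [h4]
    nlinarith
  have hm : aJ * Real.log q.1 ≤ (aJ + |a1| + K * aJ + 1) * Real.log q.1 :=
    mul_le_mul_of_nonneg_right (by nlinarith [abs_nonneg a1, (Nat.cast_nonneg K : (0 : ℝ) ≤ K), mul_nonneg (Nat.cast_nonneg K : (0 : ℝ) ≤ K) h0]) hl0
  refine ⟨hJ.trans hm, fun bs hbs => ?_⟩
  push_cast
  have h5 : (K : ℝ) * (JJ Q μ δ s C1 q.1 : ℝ) ≤ K * (aJ * Real.log q.1) := mul_le_mul_of_nonneg_left hJ (Nat.cast_nonneg K)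
  have h6 : a1 * Real.log q.1 ≤ |a1| * Real.log q.1 := mul_le_mul_of_nonneg_right (le_abs_self a1) hl0
  have h7 : 0 ≤ aJ * Real.log q.1 := mul_nonneg h0 hl0
  nlinarith

/-- The volume. -/
theorem ev_vm (θ : ℝ) {C' : ℝ} (hC : 0 ≤ C') : ∀ᶠ q in Num.Fth θ,
    C' * Real.log (q : ℕ × ℕ).1 ≤ (⌈C' * Real.log (q : ℕ × ℕ).1⌉₊ : ℝ) ∧
      (⌈C' * Real.log (q : ℕ × ℕ).1⌉₊ : ℝ) ≤ (C' + 1) * Real.log q.1 := by
  filter_upwards [ev_log θ 1] with q hq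
  refine ⟨Nat.le_ceil _, ?_⟩
  have h1 : 0 ≤ C' * Real.log (q.1 : ℝ) := mul_nonneg hC (by linarith)
  have h2 := (Nat.ceil_lt_add_one h1).le
  linarith

/-- Small connected sets of faces have size at most `C1 log n`. -/
theorem ev_small (θ : ℝ) {S s C C1 : ℝ} (hsS : s ≤ S) : ∀ᶠ q in Num.Fth θ,
    ∀ T : Tri (Fin (6 * (q : ℕ × ℕ).1)), ArS T (S * Real.log q.1) (C1 * Real.log q.1) → ∀ Y : Set (Fin (6 * q.1)),
      XP.Fs T Y → XP.DC T Y → ((XP.bdy T Y).ncard : ℝ) ≤ s * Real.log q.1 → (Y.ncard : ℝ) ≤ C * Real.log q.1 →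
      (Y.ncard : ℝ) ≤ C1 * Real.log q.1 := by
  have hn1 : Tendsto (fun q : ℕ × ℕ => (q.1 : ℝ)) (Num.Fth θ) atTop :=
    tendsto_natCast_atTop_atTop.comp (tendsto_inf_left tendsto_comap)
  have hlo : (fun y : ℝ => Real.log y) =o[atTop] fun y => y ^ ((1 : ℝ) / 4) := isLittleO_log_rpow_atTop (by norm_num)
  have h3 := hn1.eventually (hlo.bound (show (0 : ℝ) < 1 by norm_num))
  filter_upwards [h3, ev_ge θ 1, ev_pow θ (C := |C| + |S * C1|) (η := 1) (a := 1 / 2) (b := 1) one_pos (by norm_num)] with q hq hq1 hq2 T hT Y hF hD hb hY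
  have h0 : (0 : ℝ) < q.1 := by exact_mod_cast hq1
  have h01 : (1 : ℝ) ≤ q.1 := by exact_mod_cast hq1
  have hl0 : 0 ≤ Real.log (q.1 : ℝ) := Real.log_nonneg h01
  have hq' : Real.log (q.1 : ℝ) ≤ (q.1 : ℝ) ^ ((1 : ℝ) / 4) := by
    have := hq
    rw [Real.norm_of_nonneg hl0, Real.norm_of_nonneg (Real.rpow_nonneg h0.le _)] at this
    linarith
  rcases hT.ar2 Y hF hD (hb.trans (mul_le_mul_of_nonneg_right hsS hl0)) with h | h
  · exact h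
  · exfalso
    have h4 : (Y.ncard : ℝ) + (Yᶜ.ncard : ℝ) = 6 * q.1 := by
      have h1 := Set.ncard_add_ncard_compl Y
      rw [Nat.card_fin] at h1
      exact_mod_cast h1
    have h5 : (q.1 : ℝ) ^ ((1 : ℝ) / 4) * (q.1 : ℝ) ^ ((1 : ℝ) / 4) = (q.1 : ℝ) ^ ((1 : ℝ) / 2) := by
      rw [← Real.rpow_add h0]
      norm_num
    have h6 : Real.log (q.1 : ℝ) * Real.log (q.1 : ℝ) ≤ (q.1 : ℝ) ^ ((1 : ℝ) / 2) := by
      rw [← h5]
      exact mul_le_mul hq' hq' hl0 (Real.rpow_nonneg h0.le _)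
    have h7 : Real.log (q.1 : ℝ) ≤ (q.1 : ℝ) ^ ((1 : ℝ) / 2) :=
      hq'.trans (Real.rpow_le_rpow_of_exponent_le h01 (by norm_num))
    have h8 : C * Real.log q.1 ≤ |C| * (q.1 : ℝ) ^ ((1 : ℝ) / 2) :=
      (mul_le_mul_of_nonneg_right (le_abs_self C) hl0).trans (mul_le_mul_of_nonneg_left h7 (abs_nonneg C))
    have h9 : S * Real.log q.1 * (C1 * Real.log q.1) ≤ |S * C1| * (q.1 : ℝ) ^ ((1 : ℝ) / 2) := by
      have : S * Real.log q.1 * (C1 * Real.log q.1) = S * C1 * (Real.log q.1 * Real.log q.1) := by ring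
      rw [this]
      exact (mul_le_mul_of_nonneg_right (le_abs_self _) (mul_nonneg hl0 hl0)).trans
        (mul_le_mul_of_nonneg_left h6 (abs_nonneg _))
    rw [Real.rpow_one, one_mul] at hq2
    nlinarith

/-- The exponential of the bound. -/
theorem exp_bndE {Q : ℕ → ℕ} {μ κ s C1 : ℝ} {n : ℕ} (hn : 1 ≤ n) :
    Real.exp (κ * bnd Q μ (s * Real.log n) (C1 * Real.log n)) =
      Real.exp (κ * (64 * ((Q 0 : ℝ) + 2))) * (n : ℝ) ^ (κ * (s + μ * C1)) := by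
  have h0 : (0 : ℝ) < n := by exact_mod_cast hn
  rw [Real.rpow_def_of_pos h0, ← Real.exp_add]
  congr 1
  unfold bnd
  ring

/-- Triples with the triangulation in `U`. -/
theorem tri_pairs {n : ℕ} (U : Set (Tri (Fin (6 * n)))) :
    (({z : Tri (Fin (6 * n)) × Fin (6 * n) × Fin (6 * n) | z.1 ∈ U}.ncard : ℕ) : ℝ) = (6 * (n : ℝ)) ^ 2 * (U.ncard : ℝ) := by
  have e1 : {z : Tri (Fin (6 * n)) × Fin (6 * n) × Fin (6 * n) | z.1 ∈ U} =
      U ×ˢ (Set.univ : Set (Fin (6 * n) × Fin (6 * n))) := by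
    ext z
    simp
  rw [e1, Set.ncard_prod, Set.ncard_univ, Nat.card_prod, Nat.card_fin]
  push_cast
  ring

/-- `ν (6 n)! = #Trn`. -/
theorem nu_facE (n g : ℕ) : SST.nu n g * ((6 * n).factorial : ℝ) = ((Trn n g).ncard : ℝ) := by
  rw [SST.nu, div_mul_cancel₀]
  exact_mod_cast (Nat.factorial_pos _).ne'

end SYS.CF
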