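import Pool.Agent.SYS.CF.Gdw
import Pool.Agent.SYS.CF.Cnt
import Pool.Agent.SYS.CF.Det
import Pool.Agent.SYS.CF.Ev

/-!
# SYSS-CF-B2: few pairs are in a small connected set of faces of positive rank

PLAN.  `ε = (2 - κ (s + μ C1)) / 4 > 0`, `L = s log n`, `A' = C1 log n`, `b = bnd Q μ L A'`, `J = ⌈(b + 3 δ) / δ⌉ + 2`, `Pm = 3 + B.K * J`, `Vm = ⌈C' log n⌉` (`gd_ev`), all `≤ a log n`.  Let `(T, y, z)` be bad with the set `Y`, `|Y| ≤ C log n`.  If `T` is not `ArS T (S log n) (C1 log n)` or not `Gd`: at most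
`2 #Trn / n` triangulations, times `(6 n) ^ 2` pairs.  Otherwise `|Y| ≤ C1 log n` by `ar2` (the other case gives `6 n ≤ C log n + S C1 (log n) ^ 2`, false for large `n`); `det` with `τ = 1`, `m = fun _ => z` (`2 - 1 = 1 ≤ rk`).  For every `y` the number of `(T, z)` is at most
`exp (κ b) n ^ (0 + ε) nu ∑ X ∈ fc0 n y, Wt x X` (`cnt_ev` for `𝒳 = fc0 n y`; `m : Fin 1 → _` corresponds to `z = m 0`), the sum over `y` is at most `C exp (κ b) n ^ ε #Trn` (`fc0_sum`) `≤ C' n ^ (κ (s + μ C1) + ε) #Trn`, `κ (s + μ C1) + ε < 2 - 2 ε`.  So everything is `≤ η (6 n) ^ 2 #Trn` for large `n`.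
-/

namespace SYS.CF

open Classical SST SYS.CH SYS.CE Filter Topology

/-- The numbers of B2. -/
private theorem b2_num {N n η Es S2 W C0 t1 t2 t3 K3 : ℝ} (hN : 0 ≤ N) (hn : 0 < n) (h1 : n * t1 ≤ N) (h2 : n * t2 ≤ N)
    (hη : 4 / η ≤ n) (hη0 : 0 < η) (hE : 0 ≤ Es) (h3 : t3 ≤ Es * S2 * W) (hW : S2 * W ≤ C0 * N)
    (hK : K3 = Es * C0) (hp : K3 ≤ η * 18 * n ^ 2) :
    (6 * n) ^ 2 * t1 + ((6 * n) ^ 2 * t2 + t3) ≤ η * (6 * n) ^ 2 * N := by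
  have e1 : t3 ≤ K3 * N := by
    rw [hK]
    calc t3 ≤ Es * S2 * W := h3
      _ = Es * (S2 * W) := by ring
      _ ≤ Es * (C0 * N) := mul_le_mul_of_nonneg_left hW hE
      _ = Es * C0 * N := by ring
  have e2 : K3 * N ≤ η * 18 * n ^ 2 * N := mul_le_mul_of_nonneg_right hp hN
  have e3 : 4 ≤ η * n := by
    rw [div_le_iff₀ hη0] at hη
    linarith
  have e4 : n * (t1 + t2) ≤ 2 * N := by linarith
  have e5 : (6 * n) ^ 2 * (t1 + t2) ≤ 36 * n * (2 * N) := by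
    have : (6 * n) ^ 2 * (t1 + t2) = 36 * n * (n * (t1 + t2)) := by ring
    rw [this]
    exact mul_le_mul_of_nonneg_left e4 (by positivity)
  have e6 : 36 * n * (2 * N) ≤ η * 18 * n ^ 2 * N := by
    have h7 : 0 ≤ n * N := by positivity
    have h8 : 4 * (18 * (n * N)) ≤ η * n * (18 * (n * N)) := mul_le_mul_of_nonneg_right e3 (by positivity)
    nlinarith
  have e7 : η * (6 * n) ^ 2 * N = η * 18 * n ^ 2 * N + η * 18 * n ^ 2 * N := by ring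
  rw [e7]
  linarith

theorem b2 {θ x : ℝ} (h : Num.Par θ x) {S C1 : ℝ} (hC1 : 0 < C1) (hA : Area θ S C1) {μ κ V1 δ : ℝ} {B : Blk} {M Q A : ℕ → ℕ}
    {V : ℕ → ℝ} (hC : Cst θ x μ κ V1 δ B M Q A V) {s : ℝ} (hs : 0 < s) (hsS : s ≤ S) (hκ : κ * (s + μ * C1) < 2) (C : ℝ) :
    US.B2 θ s C := by
  intro η hη
  have hμ : 0 < μ := (hC.pm 0).mu
  have hx : 0 < x := h.2.2.1
  have hAA : 0 < Num.AA x := lt_trans (by norm_num) (Num.AA_gt x)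
  set ε : ℝ := (2 - κ * (s + μ * C1)) / 4 with hε
  have hε0 : 0 < ε := by rw [hε]; linarith
  obtain ⟨a, ha, hsz⟩ := ev_sz θ Q hμ.le hC.dl hs.le hC1.le B.K 1
  obtain ⟨C', hC'0, hgd⟩ := gd_ev h a
  have hcnt := cnt_ev h hC (τ := 1) (by norm_num) (max a (C' + 1)) hε0
  set C0 : ℝ := Num.AA x ^ 3 / Num.yy x with hC0
  filter_upwards [hsz, hgd, hcnt, ev_vm θ hC'0.le, ev_small θ (C := C) (C1 := C1) hsS, hA, ev_log θ 3, ev_ge θ 1, ev_g h.1,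
    ev_pow θ (C := Real.exp (κ * (64 * ((Q 0 : ℝ) + 2))) * C0) (η := η * 18) (a := 2 - 3 * ε) (b := 2) (by positivity) (by linarith),
    ev_geR θ (4 / η)] with p h1 h2 h3 h4 h5 h6 h7 h8 h9 h10 h11
  set n : ℕ := p.1 with hn
  set g : ℕ := p.2 with hg
  set J : ℕ := JJ Q μ δ s C1 n with hJ
  set Pm : ℕ := 3 + B.K * J with hPm
  set Vm : ℕ := ⌈C' * Real.log n⌉₊ with hVm
  set b : ℝ := bnd Q μ (s * Real.log n) (C1 * Real.log n) with hb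
  have hl0 : 0 ≤ Real.log (n : ℝ) := by linarith
  have hb0 : 0 ≤ b := by
    rw [hb]
    unfold bnd
    positivity
  have hPa : (Pm : ℝ) ≤ a * Real.log n := h1.2 3 (by push_cast; linarith)
  have hP' : (Pm : ℝ) ≤ max a (C' + 1) * Real.log n := hPa.trans (mul_le_mul_of_nonneg_right (le_max_left _ _) hl0)
  have hV' : (Vm : ℝ) ≤ max a (C' + 1) * Real.log n := h4.2.trans (mul_le_mul_of_nonneg_right (le_max_right _ _) hl0)
  have hJ' : (J : ℝ) ≤ max a (C' + 1) * Real.log n := h1.1.trans (mul_le_mul_of_nonneg_right (le_max_left _ _) hl0)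
  have hgd2 := h2 Pm Vm hPa h4.1
  set U1 : Set (Tri (Fin (6 * n))) := {T | T ∈ Trn n g ∧ ¬ ArS T (S * Real.log n) (C1 * Real.log n)} with hU1
  set U2 : Set (Tri (Fin (6 * n))) := {T | T ∈ Trn n g ∧ ¬ Gd g Pm Vm T} with hU2
  set W : Fin (6 * n) → Set (Tri (Fin (6 * n)) × (Fin 1 → Fin (6 * n))) := fun y =>
    {r | Gd g Pm Vm r.1 ∧ ∃ X ∈ fc0 n y, X.Le r.1 ∧ X.HConn r.1 ∧
        (Gl r.2 0 X ∨ ∃ f ∈ X.B, ∃ v ≤ b, Ch B (prg M Q) r.2 r.1 J 0 1 v X f)} with hW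
  have hWc : ∀ y, ((W y).ncard : ℝ) ≤ Real.exp (κ * b) * (n : ℝ) ^ (((1 : ℕ) : ℝ) - 1 + ε) * SST.nu n g * ∑ X ∈ fc0 n y, Wt x X := by
    intro y
    refine h3 Pm Vm J 0 hP' hV' hJ' (by norm_num) (fc0 n y) (fun X hX => ?_) b hb0
    obtain ⟨e1, e2, -⟩ := fc0_mem h8 hX
    exact ⟨e1, by rw [e2, hPm]⟩
  -- the inclusion
  have hinc : {z : Tri (Fin (6 * n)) × Fin (6 * n) × Fin (6 * n) | z.1 ∈ Trn n g ∧
      ∃ Y : Set (Fin (6 * n)), XP.Fs z.1 Y ∧ XP.DC z.1 Y ∧ z.2.1 ∈ Y ∧ z.2.2 ∈ Y ∧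
        ((XP.bdy z.1 Y).ncard : ℝ) ≤ s * Real.log n ∧ (Y.ncard : ℝ) ≤ C * Real.log n ∧ 1 ≤ CO.rk z.1 (CO.ins z.1 Y)} ⊆
      {z | z.1 ∈ U1} ∪ ({z | z.1 ∈ U2} ∪ ⋃ y : Fin (6 * n), {z | z.2.1 = y ∧ (z.1, fun _ : Fin 1 => z.2.2) ∈ W y}) := by
    rintro ⟨T, y, z⟩ ⟨hT, Y, hF, hD, hy, hz, hbd, hYc, hrk⟩
    dsimp only at hT hF hD hy hz hbd hYc hrk
    by_cases hc1 : ArS T (S * Real.log n) (C1 * Real.log n)
    swap
    · exact Or.inl ⟨hT, hc1⟩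
    by_cases hc2 : Gd g Pm Vm T
    swap
    · exact Or.inr (Or.inl ⟨hT, hc2⟩)
    refine Or.inr (Or.inr (Set.mem_iUnion.2 ⟨y, rfl, hc2, ?_⟩))
    have hYs : (Y.ncard : ℝ) ≤ C1 * Real.log n := h5 T hc1 Y hF hD hbd hYc
    obtain ⟨X, hX, e1, e2, e3⟩ := det hC h8 h9 (τ := 1) (by norm_num) hT (m := fun _ => z) hF hD hy (fun _ => hz) (by omega)
      hbd hYs (J := J) (jj_ge hC.dl n)
    exact ⟨X, hX, e1, e2, e3⟩
  have hcard : (({z : Tri (Fin (6 * n)) × Fin (6 * n) × Fin (6 * n) | z.1 ∈ Trn n g ∧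
      ∃ Y : Set (Fin (6 * n)), XP.Fs z.1 Y ∧ XP.DC z.1 Y ∧ z.2.1 ∈ Y ∧ z.2.2 ∈ Y ∧
        ((XP.bdy z.1 Y).ncard : ℝ) ≤ s * Real.log n ∧ (Y.ncard : ℝ) ≤ C * Real.log n ∧
        1 ≤ CO.rk z.1 (CO.ins z.1 Y)}.ncard : ℕ) : ℝ) ≤
      (6 * (n : ℝ)) ^ 2 * (U1.ncard : ℝ) + ((6 * (n : ℝ)) ^ 2 * (U2.ncard : ℝ) + ∑ y, ((W y).ncard : ℝ)) := by
    have e1 := Set.ncard_le_ncard hinc (Set.toFinite _)
    have e2 := e1.trans (Set.ncard_union_le _ _)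
    have e3 := e2.trans (Nat.add_le_add_left (Set.ncard_union_le _ _) _)
    have e4 : (⋃ y : Fin (6 * n), {z : Tri (Fin (6 * n)) × Fin (6 * n) × Fin (6 * n) |
        z.2.1 = y ∧ (z.1, fun _ : Fin 1 => z.2.2) ∈ W y}).ncard ≤ ∑ y, (W y).ncard := by
      refine (Set.ncard_iUnion_le_of_fintype _).trans (Finset.sum_le_sum fun y _ => ?_)
      refine Set.ncard_le_ncard_of_injOn (fun z => (z.1, fun _ : Fin 1 => z.2.2)) (fun z hz => hz.2) ?_ (Set.toFinite _)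
      rintro ⟨T, y1, z1⟩ ⟨hz1, -⟩ ⟨T', y2, z2⟩ ⟨hz2, -⟩ he
      simp only [Prod.mk.injEq] at he hz1 hz2 ⊢
      refine ⟨he.1, hz1.trans hz2.symm, congrFun he.2 0⟩
    have e5 := e3.trans (Nat.add_le_add_left (Nat.add_le_add_left e4 _) _)
    have e6 := (Nat.cast_le (α := ℝ)).2 e5
    refine e6.trans (le_of_eq ?_)
    rw [← tri_pairs U1, ← tri_pairs U2]
    push_cast
    rfl
  refine hcard.trans ?_
  have hsum : ∑ y, ((W y).ncard : ℝ) ≤ (Real.exp (κ * (64 * ((Q 0 : ℝ) + 2))) * (n : ℝ) ^ (2 - 3 * ε)) * SST.nu n g *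
      ∑ y, ∑ X ∈ fc0 n y, Wt x X := by
    refine (Finset.sum_le_sum fun y _ => hWc y).trans (le_of_eq ?_)
    rw [← Finset.mul_sum]
    congr 2
    have hn0 : (0 : ℝ) < n := by exact_mod_cast h8
    rw [hb, exp_bndE h8, mul_assoc, ← Real.rpow_add hn0]
    congr 2
    rw [hε]
    push_cast
    ring
  have hn0 : (0 : ℝ) < n := by exact_mod_cast h8
  refine b2_num (Nat.cast_nonneg _) hn0 h6 hgd2 h11 hη (by positivity) hsum (C0 := C0) ?_ rfl ?_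
  · have e1 := mul_le_mul_of_nonneg_left (fc0_sum h8 hx) (show 0 ≤ SST.nu n g by unfold SST.nu; positivity)
    refine e1.trans (le_of_eq ?_)
    rw [← nu_facE n g, ← hC0]
    ring
  · have e1 := h10
    rw [show ((2 : ℝ)) = ((2 : ℕ) : ℝ) by norm_num, Real.rpow_natCast] at e1
    refine le_trans (le_of_eq ?_) e1
    push_cast
    ring

end SYS.CF
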