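import Pool.Agent.SYS.CF.Win
import Pool.Agent.SYS.CF.Ev
import Pool.Agent.SYS.CF.Cnt
import Pool.Agent.SYS.CF.Det

/-!
# SYSS-CF-B3: few pairs are in a small connected set of faces with a vertex of large degree

PLAN.  `ST.star_start` gives `C0`, `c0` (depending on `x` only).  `ε = (1 + c0 e - κ (s + μ C1)) / 4 > 0`, `L = s log n`, `A' = C1 log n`, `b = bnd Q μ L A'`, `J = ⌈(b + 3 δ) / δ⌉ + 2`, `D0 = ⌊e log n⌋`, `bs = ⌈a1 log n⌉ + 3` with `c0 a1 ≥ 4`, `Pm = bs + B.K * J`, `Vm = ⌈C' log n⌉` (`gd_ev`), all `≤ a log n`.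
Let `(T, y, z)` be bad with the set `Y` and `u ∈ Y`, `e log n ≤ dg T u` (`US.dg T u = T.deg u`, by definition).  Exceptional `T` as in `B2`.  Otherwise `|Y| ≤ C1 log n`; apply `star_start` to `T`, `u`:
* `X ∈ 𝒳 c` with `u ∈ X.R`: `detX` with `τ = 2`, `m = ![y, z]` (`2 - 2 = 0`), `Y ∩ X.R ∋ u`: the pair `(T, m)` is in the set of `cnt_ev` for `𝒳 c`: at most `exp (κ b) n ^ (1 + ε) nu C0 bs exp (- c0 D0) (6 n)! ≤ C' n ^ (κ (s + μ C1) + 1 + ε - c0 e) bs #Trn`, and `κ (s + μ C1) + 1 + ε - c0 e ≤ 2 - 3 ε`;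
* `q ∈ 𝒴 c`, terminal event: `T ∈ q.1.Ext g`, `Gd` gives `2 n ≤ F + Vm` (`|q.1.B| ≤ bs ≤ Pm`), the field `term` of `inp_ev` (`τ = 2`): `(6 n) ^ 2 #{T} ≤ N0 Wt x q.1` (`wt_eq`), sum over `𝒴 c`: `≤ n ^ (1 + ε) C0 bs #Trn`;
* `Z ∈ 𝒵 c`: the field `goal` (`2 ≤ c + 2`), `1 ≤ |Z.R|`: `#{T} ≤ N0 Wt x Z`, sum over `𝒵 c` times `(6 n) ^ 2`: `≤ 36 n ^ (3 + ε) C0 bs exp (- c0 bs) #Trn ≤ n ^ (ε) bs C' #Trn`.
So everything is `≤ η (6 n) ^ 2 #Trn` for large `n`.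
-/

namespace SYS.CF

open Classical SST SYS.CH SYS.CE Filter Topology

private theorem nc_bU {α ι : Type} [Finite α] (s : Finset ι) (P : ι → α → Prop) :
    (({a | ∃ i ∈ s, P i a}.ncard : ℕ) : ℝ) ≤ ∑ i ∈ s, (({a | P i a}.ncard : ℕ) : ℝ) := by
  induction s using Finset.induction_on with
  | empty => simp
  | insert i s hi ih =>
    rw [Finset.sum_insert hi]
    have h1 : {a | ∃ j ∈ insert i s, P j a} ⊆ {a | P i a} ∪ {a | ∃ j ∈ s, P j a} := by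
      rintro a ⟨j, hj, hP⟩
      rcases Finset.mem_insert.1 hj with rfl | hj
      · exact Or.inl hP
      · exact Or.inr ⟨j, hj, hP⟩
    have h2 := (Set.ncard_le_ncard h1 (Set.toFinite _)).trans (Set.ncard_union_le _ _)
    have h3 : (({a | ∃ j ∈ insert i s, P j a}.ncard : ℕ) : ℝ) ≤
        ({a | P i a}.ncard : ℕ) + ({a | ∃ j ∈ s, P j a}.ncard : ℕ) := by exact_mod_cast h2
    linarith

variable {n g Pm Vm : ℕ} {x κ V1 N0 : ℝ} {B : Blk} {pr V : ℕ → ℝ}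

/-- Terminal events. -/
private theorem b3_y (hx : 0 < x) (hI : Inp n g x κ B pr V V1 Pm Vm 2 N0) {c : ℕ} (hc : c ≤ 1)
    (𝒴 : Finset (Part (Fin (6 * n)) × Fin (6 * n)))
    (h𝒴 : ∀ q ∈ 𝒴, (∃ F, Sc c q.1 F) ∧ q.2 ∈ q.1.B ∧ q.1.B.ncard ≤ Pm) :
    ((6 * n : ℕ) : ℝ) ^ 2 * (({T : Tri (Fin (6 * n)) | Gd g Pm Vm T ∧ ∃ q ∈ 𝒴, q.1.Le T ∧ q.1.HConn T ∧
      Tm c T q.1 q.2}.ncard : ℕ) : ℝ) ≤ N0 * ∑ q ∈ 𝒴, Wt x q.1 := by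
  have h1 : {T : Tri (Fin (6 * n)) | Gd g Pm Vm T ∧ ∃ q ∈ 𝒴, q.1.Le T ∧ q.1.HConn T ∧ Tm c T q.1 q.2} =
      {T : Tri (Fin (6 * n)) | ∃ q ∈ 𝒴, Gd g Pm Vm T ∧ q.1.Le T ∧ q.1.HConn T ∧ Tm c T q.1 q.2} := by
    ext T
    constructor
    · rintro ⟨a1, q, a2, a3⟩
      exact ⟨q, a2, a1, a3⟩
    · rintro ⟨q, a2, a1, a3⟩
      exact ⟨a1, q, a2, a3⟩
  rw [h1]
  refine (mul_le_mul_of_nonneg_left (nc_bU 𝒴 _) (by positivity)).trans ?_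
  rw [Finset.mul_sum, Finset.mul_sum]
  refine Finset.sum_le_sum fun q hq => ?_
  obtain ⟨⟨F, hF⟩, hq2, hq3⟩ := h𝒴 q hq
  rcases Set.eq_empty_or_nonempty {T : Tri (Fin (6 * n)) | Gd g Pm Vm T ∧ q.1.Le T ∧ q.1.HConn T ∧ Tm c T q.1 q.2} with he | ⟨T0, hT0⟩
  · rw [he, Set.ncard_empty, Nat.cast_zero, mul_zero]
    exact mul_nonneg hI.n0 (wt_pos hx _).le
  · have h2 := hT0.1.2 c F q.1 hc hF hT0.2.1 hT0.2.2.1 hq3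
    have h3 := hI.term c F q.1 q.2 hc hF hq2 h2 hq3
    rw [← wt_eq hF] at h3
    refine le_trans (mul_le_mul_of_nonneg_left ?_ (by positivity)) h3
    refine Nat.cast_le.2 (Set.ncard_le_ncard ?_ (Set.toFinite _))
    rintro T ⟨a1, a2, a3, a4⟩
    exact ⟨⟨a1.1, a2⟩, a3, a4⟩

/-- Long boundary. -/
private theorem b3_z (hx : 0 < x) (hI : Inp n g x κ B pr V V1 Pm Vm 2 N0) {c : ℕ} (hc : c ≤ 1)
    (𝒵 : Finset (Part (Fin (6 * n)))) (h𝒵 : ∀ Z ∈ 𝒵, (∃ F, Sc c Z F) ∧ Z.B.ncard ≤ Pm ∧ Z.R.Nonempty) :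
    (({T : Tri (Fin (6 * n)) | Gd g Pm Vm T ∧ ∃ Z ∈ 𝒵, Z.Le T ∧ Z.HConn T}.ncard : ℕ) : ℝ) ≤ N0 * ∑ Z ∈ 𝒵, Wt x Z := by
  have h1 : {T : Tri (Fin (6 * n)) | Gd g Pm Vm T ∧ ∃ Z ∈ 𝒵, Z.Le T ∧ Z.HConn T} =
      {T : Tri (Fin (6 * n)) | ∃ Z ∈ 𝒵, Gd g Pm Vm T ∧ Z.Le T ∧ Z.HConn T} := by
    ext T
    constructor
    · rintro ⟨a1, q, a2, a3⟩
      exact ⟨q, a2, a1, a3⟩
    · rintro ⟨q, a2, a1, a3⟩
      exact ⟨a1, q, a2, a3⟩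
  rw [h1]
  refine (nc_bU 𝒵 _).trans ?_
  rw [Finset.mul_sum]
  refine Finset.sum_le_sum fun Z hZ => ?_
  obtain ⟨⟨F, hF⟩, hZ2, hZ3⟩ := h𝒵 Z hZ
  rcases Set.eq_empty_or_nonempty {T : Tri (Fin (6 * n)) | Gd g Pm Vm T ∧ Z.Le T ∧ Z.HConn T} with he | ⟨T0, hT0⟩
  · rw [he, Set.ncard_empty, Nat.cast_zero]
    exact mul_nonneg hI.n0 (wt_pos hx _).le
  · have h2 := hT0.1.2 c F Z hc hF hT0.2.1 hT0.2.2 hZ2
    have h3 := hI.goal c F Z hc (by omega) hF h2 hZ2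
    rw [← wt_eq hF] at h3
    have h4 : 1 ≤ Z.R.ncard := (Set.ncard_pos (Set.toFinite _)).2 hZ3
    have h5 : (1 : ℝ) ≤ (Z.R.ncard : ℝ) ^ 2 := by
      have : (1 : ℝ) ≤ Z.R.ncard := by exact_mod_cast h4
      exact one_le_pow₀ this
    have h6 : (({T : Tri (Fin (6 * n)) | Gd g Pm Vm T ∧ Z.Le T ∧ Z.HConn T}.ncard : ℕ) : ℝ) ≤
        (({T | T ∈ Z.Ext g ∧ Z.HConn T}.ncard : ℕ) : ℝ) := by
      refine Nat.cast_le.2 (Set.ncard_le_ncard ?_ (Set.toFinite _))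
      rintro T ⟨a1, a2, a3⟩
      exact ⟨⟨a1.1, a2⟩, a3⟩
    have h7 : (0 : ℝ) ≤ (({T | T ∈ Z.Ext g ∧ Z.HConn T}.ncard : ℕ) : ℝ) := Nat.cast_nonneg _
    exact h6.trans ((le_mul_of_one_le_left h7 h5).trans h3)

/-- The three cases of a start. -/
private theorem b3_c (hx : 0 < x) (hI : Inp n g x κ B pr V V1 Pm Vm 2 N0) {c : ℕ} (hc : c ≤ 1)
    {𝒳 𝒵 : Finset (Part (Fin (6 * n)))} {𝒴 : Finset (Part (Fin (6 * n)) × Fin (6 * n))}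
    (h𝒴 : ∀ q ∈ 𝒴, (∃ F, Sc c q.1 F) ∧ q.2 ∈ q.1.B ∧ q.1.B.ncard ≤ Pm)
    (h𝒵 : ∀ Z ∈ 𝒵, (∃ F, Sc c Z F) ∧ Z.B.ncard ≤ Pm ∧ Z.R.Nonempty) {bb X1 : ℝ} {J : ℕ}
    (hX1 : (({r : Tri (Fin (6 * n)) × (Fin 2 → Fin (6 * n)) | Gd g Pm Vm r.1 ∧ ∃ X ∈ 𝒳, X.Le r.1 ∧ X.HConn r.1 ∧
      (Gl r.2 c X ∨ ∃ f ∈ X.B, ∃ v ≤ bb, Ch B pr r.2 r.1 J c 2 v X f)}.ncard : ℕ) : ℝ) ≤ X1) :
    (({z : Tri (Fin (6 * n)) × Fin (6 * n) × Fin (6 * n) | Gd g Pm Vm z.1 ∧ ((∃ X ∈ 𝒳, X.Le z.1 ∧ X.HConn z.1 ∧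
      (Gl ![z.2.1, z.2.2] c X ∨ ∃ f ∈ X.B, ∃ v ≤ bb, Ch B pr ![z.2.1, z.2.2] z.1 J c 2 v X f)) ∨
      (∃ q ∈ 𝒴, q.1.Le z.1 ∧ q.1.HConn z.1 ∧ Tm c z.1 q.1 q.2) ∨ ∃ Z ∈ 𝒵, Z.Le z.1 ∧ Z.HConn z.1)}.ncard : ℕ) : ℝ) ≤
      X1 + N0 * ∑ q ∈ 𝒴, Wt x q.1 + (6 * (n : ℝ)) ^ 2 * (N0 * ∑ Z ∈ 𝒵, Wt x Z) := by
  have h1 : {z : Tri (Fin (6 * n)) × Fin (6 * n) × Fin (6 * n) | Gd g Pm Vm z.1 ∧ ((∃ X ∈ 𝒳, X.Le z.1 ∧ X.HConn z.1 ∧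
      (Gl ![z.2.1, z.2.2] c X ∨ ∃ f ∈ X.B, ∃ v ≤ bb, Ch B pr ![z.2.1, z.2.2] z.1 J c 2 v X f)) ∨
      (∃ q ∈ 𝒴, q.1.Le z.1 ∧ q.1.HConn z.1 ∧ Tm c z.1 q.1 q.2) ∨ ∃ Z ∈ 𝒵, Z.Le z.1 ∧ Z.HConn z.1)} ⊆
      {z : Tri (Fin (6 * n)) × Fin (6 * n) × Fin (6 * n) | Gd g Pm Vm z.1 ∧ ∃ X ∈ 𝒳, X.Le z.1 ∧ X.HConn z.1 ∧
        (Gl ![z.2.1, z.2.2] c X ∨ ∃ f ∈ X.B, ∃ v ≤ bb, Ch B pr ![z.2.1, z.2.2] z.1 J c 2 v X f)} ∪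
      ({z : Tri (Fin (6 * n)) × Fin (6 * n) × Fin (6 * n) | z.1 ∈ {T : Tri (Fin (6 * n)) | Gd g Pm Vm T ∧
        ∃ q ∈ 𝒴, q.1.Le T ∧ q.1.HConn T ∧ Tm c T q.1 q.2}} ∪
      {z : Tri (Fin (6 * n)) × Fin (6 * n) × Fin (6 * n) | z.1 ∈ {T : Tri (Fin (6 * n)) | Gd g Pm Vm T ∧
        ∃ Z ∈ 𝒵, Z.Le T ∧ Z.HConn T}}) := by
    rintro z ⟨a1, a2 | a2 | a2⟩
    · exact Or.inl ⟨a1, a2⟩
    · exact Or.inr (Or.inl ⟨a1, a2⟩)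
    · exact Or.inr (Or.inr ⟨a1, a2⟩)
  have h2 := (Set.ncard_le_ncard h1 (Set.toFinite _)).trans ((Set.ncard_union_le _ _).trans
    (Nat.add_le_add_left (Set.ncard_union_le _ _) _))
  refine (Nat.cast_le.2 h2).trans ?_
  rw [Nat.cast_add, Nat.cast_add, tri_pairs, tri_pairs]
  have h3 : (({z : Tri (Fin (6 * n)) × Fin (6 * n) × Fin (6 * n) | Gd g Pm Vm z.1 ∧ ∃ X ∈ 𝒳, X.Le z.1 ∧ X.HConn z.1 ∧
        (Gl ![z.2.1, z.2.2] c X ∨ ∃ f ∈ X.B, ∃ v ≤ bb, Ch B pr ![z.2.1, z.2.2] z.1 J c 2 v X f)}.ncard : ℕ) : ℝ) ≤ X1 := by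
    refine le_trans (Nat.cast_le.2 ?_) hX1
    refine Set.ncard_le_ncard_of_injOn (fun z => (z.1, ![z.2.1, z.2.2])) ?_ ?_ (Set.toFinite _)
    · rintro z hz
      exact hz
    · rintro ⟨T, y, w⟩ _ ⟨T', y', w'⟩ _ he
      have e1 := congrArg Prod.fst he
      have e2 := congrArg Prod.snd he
      have e3 : y = y' := congrFun e2 0
      have e4 : w = w' := congrFun e2 1
      simp only at e1
      rw [e1, e3, e4]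
  have h4 := b3_y hx hI hc 𝒴 h𝒴
  have h5 := b3_z hx hI hc 𝒵 h𝒵
  have h6 : (0 : ℝ) ≤ (6 * (n : ℝ)) ^ 2 := by positivity
  have h7 := mul_le_mul_of_nonneg_left h5 h6
  push_cast at h4
  linarith

theorem b3 {θ x : ℝ} (h : Num.Par θ x) : ∃ c0 : ℝ, 0 < c0 ∧ ∀ {S C1 : ℝ}, 0 < C1 → Area θ S C1 → ∀ {μ κ V1 δ : ℝ} {B : Blk}
    {M Q A : ℕ → ℕ} {V : ℕ → ℝ}, Cst θ x μ κ V1 δ B M Q A V → ∀ {s e : ℝ}, 0 < s → s ≤ S → 0 < e →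
    κ * (s + μ * C1) < 1 + c0 * e → ∀ C : ℝ, US.B3 θ s C e := by
  obtain ⟨C0, c0, hC0, hc0, hst⟩ := ST.star_start h.2.2.1
  refine ⟨c0, hc0, ?_⟩
  intro S C1 hC1 hA μ κ V1 δ B M Q A V hC s e hs hsS he hκ C
  obtain ⟨ε, hε⟩ : ∃ ε : ℝ, ε = min ((1 + c0 * e - κ * (s + μ * C1)) / 2) (1 / 2) := ⟨_, rfl⟩
  have hε0 : 0 < ε := by
    rw [hε]
    exact lt_min (by linarith) (by norm_num)
  have hε1 : 2 * ε ≤ 1 + c0 * e - κ * (s + μ * C1) := by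
    have := min_le_left ((1 + c0 * e - κ * (s + μ * C1)) / 2) (1 / 2)
    rw [← hε] at this
    linarith
  have hε2 : ε ≤ 1 / 2 := by
    rw [hε]
    exact min_le_right _ _
  obtain ⟨a1, ha1⟩ : ∃ a1 : ℝ, a1 = 4 / c0 := ⟨_, rfl⟩
  have ha1p : 0 < a1 := by
    rw [ha1]
    positivity
  have hmu : 0 < μ := (hC.pm 0).mu
  obtain ⟨a, ha, hwin⟩ := win h Q μ s C1 (a1 + 4) hC.dl B.K
  have hcnt := cnt_ev h hC (τ := 2) (by norm_num) a hε0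
  have hinp := inp_ev h hC 2 a hε0
  obtain ⟨E1, hE1⟩ : ∃ E1 : ℝ, E1 = Real.exp (κ * (64 * ((Q 0 : ℝ) + 2))) := ⟨_, rfl⟩
  have hE1p : 0 < E1 := by
    rw [hE1]
    exact Real.exp_pos _
  intro η hη
  filter_upwards [hA, hwin, hcnt, hinp, ev_log θ 1, ev_ge θ 1, ev_g h.1, ev_small (C := C) (C1 := C1) θ hsS,
    ev_logpow θ (C := E1 * C0 * (a1 + 4)) (D := 0) hη (show κ * (s + μ * C1) + (1 + ε) - c0 * e < 2 by linarith),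
    ev_logpow θ (C := C0 * (a1 + 4)) (D := 0) hη (show 1 + ε < 2 by linarith),
    ev_logpow θ (C := 36 * C0 * (a1 + 4)) (D := 0) hη (show -1 + ε < 2 by linarith),
    ev_pow θ (C := 72) hη (show (1 : ℝ) < 2 by norm_num)] with q h1 h2 h3 h3' h4 h5 h6 h7 p1 p2 p3 p4
  obtain ⟨J, Pm, Vm, w1, w2, w3, w4, w5, w6⟩ := h2
  obtain ⟨n, g⟩ := q
  dsimp only at h1 h3 h3' h4 h5 h6 h7 p1 p2 p3 p4 w1 w2 w3 w4 w5 w6 ⊢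
  have hn0 : (0 : ℝ) < n := by exact_mod_cast h5
  have hn1 : (1 : ℝ) ≤ n := by exact_mod_cast h5
  obtain ⟨l, hl⟩ : ∃ l : ℝ, l = Real.log n := ⟨_, rfl⟩
  obtain ⟨N, hN⟩ : ∃ N : ℝ, N = ((Trn n g).ncard : ℕ) := ⟨_, rfl⟩
  have hN0 : 0 ≤ N := by
    rw [hN]
    exact Nat.cast_nonneg _
  have hI := h3' Pm Vm w3 w4
  -- the start regions
  obtain ⟨bs, hbs⟩ : ∃ bs : ℕ, bs = ⌈a1 * Real.log n⌉₊ + 3 := ⟨_, rfl⟩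
  obtain ⟨𝒳, 𝒵, 𝒴, hc1, hc2⟩ := hst n g bs ⌈e * Real.log n⌉₊ h5 h6 (by omega)
  have hlog : 0 ≤ Real.log (n : ℝ) := by linarith
  have hbs1 : (bs : ℝ) ≤ (a1 + 4) * Real.log n := by
    rw [hbs]
    have e1 := (Nat.ceil_lt_add_one (show 0 ≤ a1 * Real.log n by positivity)).le
    push_cast
    linarith
  have hbs2 : a1 * Real.log n ≤ bs := by
    rw [hbs]
    have e1 := Nat.le_ceil (a1 * Real.log n)
    push_cast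
    linarith
  have hx1 : Real.exp (-(c0 * bs)) ≤ (n : ℝ) ^ (-4 : ℝ) := by
    rw [Real.rpow_def_of_pos hn0]
    refine Real.exp_le_exp.2 ?_
    have e1 : c0 * (a1 * Real.log n) ≤ c0 * bs := mul_le_mul_of_nonneg_left hbs2 hc0.le
    have e2 : c0 * (a1 * Real.log n) = 4 * Real.log n := by
      rw [ha1]
      field_simp
    linarith
  have hx2 : Real.exp (-(c0 * (⌈e * Real.log n⌉₊ : ℕ))) ≤ (n : ℝ) ^ (-(c0 * e)) := by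
    rw [Real.rpow_def_of_pos hn0]
    refine Real.exp_le_exp.2 ?_
    have e1 : c0 * (e * Real.log n) ≤ c0 * (⌈e * Real.log n⌉₊ : ℕ) := mul_le_mul_of_nonneg_left (Nat.le_ceil _) hc0.le
    linarith
  have hb0 : 0 ≤ bnd Q μ (s * Real.log n) (C1 * Real.log n) := by
    unfold bnd
    positivity
  have e0 : ((2 : ℕ) : ℝ) - 1 + ε = 1 + ε := by
    push_cast
    ring
  rw [e0] at hI h3
  have hnu : 0 ≤ SST.nu n g := RB.nu_nn _ _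
  have hpw : 0 ≤ (n : ℝ) ^ (1 + ε) := Real.rpow_nonneg hn0.le _
  have hwt : ∀ {ι : Type} (I : Finset ι) (f : ι → Part (Fin (6 * n))), 0 ≤ ∑ i ∈ I, Wt x (f i) := fun I f =>
    Finset.sum_nonneg fun i _ => (wt_pos h.2.2.1 _).le
  have per_c : ∀ c : ℕ, c ≤ 1 → (({z : Tri (Fin (6 * n)) × Fin (6 * n) × Fin (6 * n) | Gd g Pm Vm z.1 ∧
      ((∃ X ∈ 𝒳 c, X.Le z.1 ∧ X.HConn z.1 ∧
      (Gl ![z.2.1, z.2.2] c X ∨ ∃ f ∈ X.B, ∃ v ≤ bnd Q μ (s * Real.log n) (C1 * Real.log n),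
        Ch B (prg M Q) ![z.2.1, z.2.2] z.1 J c 2 v X f)) ∨
      (∃ q ∈ 𝒴 c, q.1.Le z.1 ∧ q.1.HConn z.1 ∧ Tm c z.1 q.1 q.2) ∨ ∃ Z ∈ 𝒵 c, Z.Le z.1 ∧ Z.HConn z.1)}.ncard : ℕ) : ℝ) ≤
      3 * (η * (n : ℝ) ^ (2 : ℝ)) * N := by
    intro c hc
    obtain ⟨k1, k2, k3, k4, k5, k6⟩ := hc1 c hc
    have hB : ∀ m : ℕ, m ≤ bs → m + B.K * J ≤ Pm := by
      intro m hm
      refine w2 m ?_
      have : (m : ℝ) ≤ bs := by exact_mod_cast hm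
      linarith
    have hX1 := h3 Pm Vm J c w3 w4 w5 hc (𝒳 c) (fun X hX => ⟨(k1 X hX).1, hB _ (k1 X hX).2⟩) _ hb0
    have hmain := b3_c h.2.2.1 hI hc (𝒳 := 𝒳 c) (𝒴 := 𝒴 c) (𝒵 := 𝒵 c)
      (fun q hq => ⟨(k2 q hq).1, (k2 q hq).2.1, by have := hB _ (k2 q hq).2.2; omega⟩)
      (fun Z hZ => ⟨(k3 Z hZ).1, by have := hB _ (k3 Z hZ).2.1; omega, (k3 Z hZ).2.2⟩) hX1
    refine hmain.trans ?_
    have t1 : Real.exp (κ * bnd Q μ (s * Real.log n) (C1 * Real.log n)) * (n : ℝ) ^ (1 + ε) * SST.nu n g *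
        ∑ X ∈ 𝒳 c, Wt x X ≤ η * (n : ℝ) ^ (2 : ℝ) * N := by
      rw [exp_bndE h5, ← hE1]
      have u1 : ∑ X ∈ 𝒳 c, Wt x X ≤ C0 * ((a1 + 4) * Real.log n) * (n : ℝ) ^ (-(c0 * e)) * (6 * n).factorial := by
        refine k4.trans ?_
        refine mul_le_mul_of_nonneg_right ?_ (Nat.cast_nonneg _)
        exact mul_le_mul (mul_le_mul_of_nonneg_left hbs1 hC0.le) hx2 (Real.exp_pos _).le (by positivity)
      have u2 : (n : ℝ) ^ (κ * (s + μ * C1)) * (n : ℝ) ^ (1 + ε) * (n : ℝ) ^ (-(c0 * e)) =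
          (n : ℝ) ^ (κ * (s + μ * C1) + (1 + ε) - c0 * e) := by
        rw [← Real.rpow_add hn0, ← Real.rpow_add hn0]
        congr 1
      have u3 : 0 ≤ (n : ℝ) ^ (κ * (s + μ * C1)) := Real.rpow_nonneg hn0.le _
      calc E1 * (n : ℝ) ^ (κ * (s + μ * C1)) * (n : ℝ) ^ (1 + ε) * SST.nu n g * ∑ X ∈ 𝒳 c, Wt x X
          ≤ E1 * (n : ℝ) ^ (κ * (s + μ * C1)) * (n : ℝ) ^ (1 + ε) * SST.nu n g *
            (C0 * ((a1 + 4) * Real.log n) * (n : ℝ) ^ (-(c0 * e)) * (6 * n).factorial) :=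
            mul_le_mul_of_nonneg_left u1 (by positivity)
        _ = (E1 * C0 * (a1 + 4) * Real.log n + 0) * ((n : ℝ) ^ (κ * (s + μ * C1)) * (n : ℝ) ^ (1 + ε) *
            (n : ℝ) ^ (-(c0 * e))) * (SST.nu n g * (6 * n).factorial) := by ring
        _ = (E1 * C0 * (a1 + 4) * Real.log n + 0) * (n : ℝ) ^ (κ * (s + μ * C1) + (1 + ε) - c0 * e) * N := by
            rw [u2, nu_facE, hN]
        _ ≤ _ := mul_le_mul_of_nonneg_right p1 hN0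
    have t2 : (n : ℝ) ^ (1 + ε) * SST.nu n g * ∑ q ∈ 𝒴 c, Wt x q.1 ≤ η * (n : ℝ) ^ (2 : ℝ) * N := by
      have u1 : ∑ q ∈ 𝒴 c, Wt x q.1 ≤ C0 * ((a1 + 4) * Real.log n) * (6 * n).factorial := by
        refine k5.trans ?_
        refine mul_le_mul_of_nonneg_right ?_ (Nat.cast_nonneg _)
        exact mul_le_mul_of_nonneg_left hbs1 hC0.le
      calc (n : ℝ) ^ (1 + ε) * SST.nu n g * ∑ q ∈ 𝒴 c, Wt x q.1
          ≤ (n : ℝ) ^ (1 + ε) * SST.nu n g * (C0 * ((a1 + 4) * Real.log n) * (6 * n).factorial) :=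
            mul_le_mul_of_nonneg_left u1 (by positivity)
        _ = (C0 * (a1 + 4) * Real.log n + 0) * (n : ℝ) ^ (1 + ε) * (SST.nu n g * (6 * n).factorial) := by ring
        _ = (C0 * (a1 + 4) * Real.log n + 0) * (n : ℝ) ^ (1 + ε) * N := by rw [nu_facE, hN]
        _ ≤ _ := mul_le_mul_of_nonneg_right p2 hN0
    have t3 : (6 * (n : ℝ)) ^ 2 * ((n : ℝ) ^ (1 + ε) * SST.nu n g * ∑ Z ∈ 𝒵 c, Wt x Z) ≤ η * (n : ℝ) ^ (2 : ℝ) * N := by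
      have u1 : ∑ Z ∈ 𝒵 c, Wt x Z ≤ C0 * ((a1 + 4) * Real.log n) * (n : ℝ) ^ (-4 : ℝ) * (6 * n).factorial := by
        refine k6.trans ?_
        refine mul_le_mul_of_nonneg_right ?_ (Nat.cast_nonneg _)
        exact mul_le_mul (mul_le_mul_of_nonneg_left hbs1 hC0.le) hx1 (Real.exp_pos _).le (by positivity)
      have u2 : (n : ℝ) ^ 2 * (n : ℝ) ^ (1 + ε) * (n : ℝ) ^ (-4 : ℝ) = (n : ℝ) ^ (-1 + ε) := by
        rw [← Real.rpow_natCast, ← Real.rpow_add hn0, ← Real.rpow_add hn0]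
        congr 1
        push_cast
        ring
      calc (6 * (n : ℝ)) ^ 2 * ((n : ℝ) ^ (1 + ε) * SST.nu n g * ∑ Z ∈ 𝒵 c, Wt x Z)
          ≤ (6 * (n : ℝ)) ^ 2 * ((n : ℝ) ^ (1 + ε) * SST.nu n g *
            (C0 * ((a1 + 4) * Real.log n) * (n : ℝ) ^ (-4 : ℝ) * (6 * n).factorial)) :=
            mul_le_mul_of_nonneg_left (mul_le_mul_of_nonneg_left u1 (by positivity)) (by positivity)
        _ = (36 * C0 * (a1 + 4) * Real.log n + 0) * ((n : ℝ) ^ 2 * (n : ℝ) ^ (1 + ε) * (n : ℝ) ^ (-4 : ℝ)) *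
            (SST.nu n g * (6 * n).factorial) := by ring
        _ = (36 * C0 * (a1 + 4) * Real.log n + 0) * (n : ℝ) ^ (-1 + ε) * N := by rw [u2, nu_facE, hN]
        _ ≤ _ := mul_le_mul_of_nonneg_right p3 hN0
    linarith
  -- the union
  have hincl : {q : Tri (Fin (6 * n)) × Fin (6 * n) × Fin (6 * n) | q.1 ∈ Trn n g ∧ ∃ Y : Set (Fin (6 * n)), XP.Fs q.1 Y ∧
      XP.DC q.1 Y ∧ q.2.1 ∈ Y ∧ q.2.2 ∈ Y ∧ ((XP.bdy q.1 Y).ncard : ℝ) ≤ s * Real.log n ∧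
      (Y.ncard : ℝ) ≤ C * Real.log n ∧ ∃ u ∈ Y, e * Real.log n ≤ (US.dg q.1 u : ℝ)} ⊆
      {z : Tri (Fin (6 * n)) × Fin (6 * n) × Fin (6 * n) | z.1 ∈ {T : Tri (Fin (6 * n)) | T ∈ Trn n g ∧
        ¬ ArS T (S * Real.log n) (C1 * Real.log n)}} ∪
      ({z : Tri (Fin (6 * n)) × Fin (6 * n) × Fin (6 * n) | z.1 ∈ {T : Tri (Fin (6 * n)) | T ∈ Trn n g ∧ ¬ Gd g Pm Vm T}} ∪
      {z : Tri (Fin (6 * n)) × Fin (6 * n) × Fin (6 * n) | ∃ c ∈ Finset.range 2, Gd g Pm Vm z.1 ∧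
      ((∃ X ∈ 𝒳 c, X.Le z.1 ∧ X.HConn z.1 ∧
      (Gl ![z.2.1, z.2.2] c X ∨ ∃ f ∈ X.B, ∃ v ≤ bnd Q μ (s * Real.log n) (C1 * Real.log n),
        Ch B (prg M Q) ![z.2.1, z.2.2] z.1 J c 2 v X f)) ∨
      (∃ q ∈ 𝒴 c, q.1.Le z.1 ∧ q.1.HConn z.1 ∧ Tm c z.1 q.1 q.2) ∨ ∃ Z ∈ 𝒵 c, Z.Le z.1 ∧ Z.HConn z.1)}) := by
    rintro ⟨T, y, w⟩ ⟨hT, Y, y1, y2, y3, y4, y5, y6, u, hu, hdu⟩
    by_cases c1 : ArS T (S * Real.log n) (C1 * Real.log n)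
    · by_cases c2 : Gd g Pm Vm T
      · refine Or.inr (Or.inr ?_)
        have hY := h7 T c1 Y y1 y2 y5 y6
        have hdeg : ⌈e * Real.log n⌉₊ ≤ T.deg u := Nat.ceil_le.2 hdu
        obtain ⟨c, hc, hcase⟩ := hc2 T hT u hdeg
        refine ⟨c, Finset.mem_range.2 (by omega), c2, ?_⟩
        rcases hcase with ⟨X, hX, x1, x2, x3⟩ | hcase | hcase
        · refine Or.inl ⟨X, hX, x1, x2, ?_⟩
          obtain ⟨⟨F, hF⟩, -⟩ := (hc1 c hc).1 X hX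
          exact detX hC h6 (τ := 2) le_rfl hT (m := ![y, w]) y1 y2 (by
            intro i
            fin_cases i
            · exact y3
            · exact y4) (by omega) y5 hY w1 hc hF x1 x2 ⟨u, hu, x3⟩
        · exact Or.inr (Or.inl hcase)
        · exact Or.inr (Or.inr hcase)
      · exact Or.inr (Or.inl ⟨hT, c2⟩)
    · exact Or.inl ⟨hT, c1⟩
  have hfin := (Set.ncard_le_ncard hincl (Set.toFinite _)).trans ((Set.ncard_union_le _ _).trans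
    (Nat.add_le_add_left (Set.ncard_union_le _ _) _))
  refine (Nat.cast_le.2 hfin).trans ?_
  rw [Nat.cast_add, Nat.cast_add, tri_pairs, tri_pairs]
  have hU := nc_bU (α := Tri (Fin (6 * n)) × Fin (6 * n) × Fin (6 * n)) (Finset.range 2) (fun c z => Gd g Pm Vm z.1 ∧
      ((∃ X ∈ 𝒳 c, X.Le z.1 ∧ X.HConn z.1 ∧
      (Gl ![z.2.1, z.2.2] c X ∨ ∃ f ∈ X.B, ∃ v ≤ bnd Q μ (s * Real.log n) (C1 * Real.log n),
        Ch B (prg M Q) ![z.2.1, z.2.2] z.1 J c 2 v X f)) ∨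
      (∃ q ∈ 𝒴 c, q.1.Le z.1 ∧ q.1.HConn z.1 ∧ Tm c z.1 q.1 q.2) ∨ ∃ Z ∈ 𝒵 c, Z.Le z.1 ∧ Z.HConn z.1))
  have hU2 := Finset.sum_le_sum fun c (hc : c ∈ Finset.range 2) => per_c c (by have := Finset.mem_range.1 hc; omega)
  rw [Finset.sum_const, Finset.card_range, nsmul_eq_mul] at hU2
  have hU3 := hU.trans hU2
  push_cast at hU3
  rw [← hN] at h1 w6
  have r1 : (6 * (n : ℝ)) ^ 2 * (({T : Tri (Fin (6 * n)) | T ∈ Trn n g ∧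
      ¬ ArS T (S * Real.log n) (C1 * Real.log n)}.ncard : ℕ) : ℝ) ≤ 36 * n * N := by
    have := mul_le_mul_of_nonneg_left h1 (show (0 : ℝ) ≤ 36 * n by positivity)
    linarith
  have r2 : (6 * (n : ℝ)) ^ 2 * (({T : Tri (Fin (6 * n)) | T ∈ Trn n g ∧ ¬ Gd g Pm Vm T}.ncard : ℕ) : ℝ) ≤ 36 * n * N := by
    have := mul_le_mul_of_nonneg_left w6 (show (0 : ℝ) ≤ 36 * n by positivity)
    linarith
  rw [Real.rpow_one] at p4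
  have r3 := mul_le_mul_of_nonneg_right p4 hN0
  have r4 : (n : ℝ) ^ (2 : ℝ) = (n : ℝ) ^ 2 := by
    rw [← Real.rpow_natCast]
    norm_num
  rw [r4] at hU3 r3
  have r5 : 0 ≤ η * (n : ℝ) ^ 2 * N := by positivity
  have r6 : η * (6 * (n : ℝ)) ^ 2 * ((Trn n g).ncard : ℕ) = 36 * (η * (n : ℝ) ^ 2 * N) := by
    rw [hN]
    ring
  rw [r6]
  linarith

end SYS.CF
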