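import Pool.Agent.SYS.CE.Bri
import Pool.Agent.SYS.CH.Cnt
import Pool.Agent.SYS.TC.Inp
import Pool.Agent.SYS.LA.ArS
import Pool.Agent.SYS.ST.Main
import Pool.Agent.SYS.US.Def2
import Pool.Agent.SYS.US.Grw
import Pool.Agent.SYS.T1

/-!
# Project SYS (MP_650813_pr, S*), block CF: the three bad events B1, B2, B3 and the choice of the constants (definitions).  DO NOT CHANGE.

`Cst θ x μ κ V1 δ B M Q A V`: the block `B` with sizes `M p, Q p, A p`, rate `κ`, potential `V` (between `1` and `V1`), progress at least `δ`; `ex` is the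
numerical input (E).  `Area θ S C1`: regions and connected sets of faces with at most `S log n` boundary darts have size at most `C1 log n` (darts).
`bnd Q μ L A`: bound of the progress of a chain.  `Pair θ x`: for all `μ`, `δ` there is such a block with the rate `κ`, and GRW holds with a rate
`β ≤ (1 + δ) / κ`.
-/

namespace SYS.CF

open Classical SST SYS.CH SYS.CE

/-- A block with its numbers. -/
structure Cst (θ x μ κ V1 δ : ℝ) (B : Blk) (M Q A : ℕ → ℕ) (V : ℕ → ℝ) : Prop where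
  ok : B.Ok
  bin : BIn B M Q A
  pm : ∀ p, PG.Pm μ 2 (M p) (Q p) (A p)
  dl : 0 < δ
  pr : ∀ p, δ ≤ prg M Q p
  ka : 0 ≤ κ
  v1 : ∀ p, 1 ≤ V p ∧ V p ≤ V1
  ex : ∀ a : ℝ, ∀ᶠ q in Num.Fth θ, ∀ (X : Part (Fin (6 * (q : ℕ × ℕ).1))) (f : Fin (6 * q.1)) (l : List (Fin (6 * q.1))) (p : ℕ)
    (P : List ℕ) (F c : ℕ), X.Typ (f :: l) (p :: P) F c → 2 * (q.1 : ℝ) ≤ F + a * Real.log q.1 →
    ((p + P.sum : ℕ) : ℝ) ≤ a * Real.log q.1 →
    ∀ Q' : Finset (List Stp × Part (Fin (6 * q.1)) × Fin (6 * q.1)), (∀ r ∈ Q', Cpl B X f r) →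
      ∑ r ∈ Q', Part.nwt x F r.1 * ∑ e : Fin (6 * q.1), (if e ∈ r.2.1.B ∧ e ∉ X.B then V (r.2.1.per e) else 0) ≤
        Real.exp (κ * prg M Q p) * V p

/-- AREA. -/
def Area (θ S C1 : ℝ) : Prop := ∀ᶠ q in Num.Fth θ,
  ((q : ℕ × ℕ).1 : ℝ) * (({T : Tri (Fin (6 * q.1)) | T ∈ Trn q.1 q.2 ∧
    ¬ ArS T (S * Real.log q.1) (C1 * Real.log q.1)}.ncard : ℕ) : ℝ) ≤ ((Trn q.1 q.2).ncard : ℕ)

/-- Bound of the progress. -/
noncomputable def bnd (Q : ℕ → ℕ) (μ L A : ℝ) : ℝ := L + μ * A + 64 * (Q 0 + 2)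

/-- The input of T2: blocks and growth. -/
def Pair (θ x : ℝ) : Prop := ∃ S : ℝ, 0 < S ∧ ∀ μ δ : ℝ, 0 < μ → μ ≤ 1 → 0 < δ →
  ∃ (κ V1 dl β C : ℝ) (B : Blk) (M Q A : ℕ → ℕ) (V : ℕ → ℝ), Cst θ x μ κ V1 dl B M Q A V ∧ 0 < β ∧ β ≤ S ∧ κ * β ≤ 1 + δ ∧
    ∀ e : ℝ, 0 < e → e < 1 / 2 → US.Grw θ β C e

end SYS.CF
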