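import Pool.Agent.SYS.CF.Defs
import Pool.Agent.SYS.CO.Oth

/-!
# SYSS-CF-Gdw: almost all triangulations are good

PLAN.  `reg_F`: `Typ` and `T ∈ X.Ext g`, `HConn`: the set in `Part.typ_card` (`h = g - κ`, `κ ≤ g` by `typ_le`) is not empty, so `Num.muG P F (g - κ) ≠ 0`, so
`4 (g - κ) + 2 #P ≤ 4 + F + P.sum` (definition of `muG`: otherwise it is `0`; see the proof of `typ_card`).
`gd_ev`: `ar_star h (max a 1)` gives `C1`; `C' = C1`.  For `T` with `ArS T (max a 1 * log n) (C1 log n)` and `C1 log n ≤ Vm`: let `X` be a region with `Sc c X F`, `c ≤ 1`, `|X.B| ≤ Pm ≤ a log n`.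
`ar0`: if `|X.R| ≤ C1 log n` then `6 n = |X.R| + 3 F` (`sc_F`) gives `2 n ≤ F + C1 log n / 3`, so `2 n ≤ F + Vm` (in ℕ).  If `|X.Rᶜ| = 3 F ≤ C1 log n`: by `reg_F`
`4 (g - 1) ≤ 4 + F + a log n`, impossible for large `n` because `g ≥ θ n / 2` (`Num.Fth`, `0 < θ`).
-/

namespace SYS.CF

open Classical SST SYS.CH SYS.CE

theorem reg_F {n g F κ : ℕ} {X : Part (Fin (6 * n))} {l : List (Fin (6 * n))} {P : List ℕ} (hX : X.Typ l P F κ)
    {T : Tri (Fin (6 * n))} (hT : T ∈ X.Ext g) (hc : X.HConn T) : 4 * g + 2 * P.length ≤ 4 + F + P.sum + 4 * κ := by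
  have hvol := hX.vol
  rw [Nat.card_fin] at hvol
  have h3 := CO.inn_vtx hT.2
  have h4 : Nat.card T.V + 2 * g = n + 2 := hT.1.2
  have h5 := hX.eul
  have h6 : P.length = l.length := by rw [← hX.per, List.length_map]
  omega

/-- `AREA*` and the Euler relation: a region of genus `0` with few boundary darts has a small number of revealed faces. -/
theorem gd_of {n g : ℕ} {T : Tri (Fin (6 * n))} (hT : T ∈ Trn n g) {Pm Vm : ℕ} {A : ℝ}
    (hA : ∀ S : Part (Fin (6 * n)), S.Le T → S.Con → S.HConn T → S.B.ncard ≤ Pm → (S.R.ncard : ℝ) ≤ A ∨ (S.Rᶜ.ncard : ℝ) ≤ A)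
    (hV : A ≤ 3 * Vm) (hg : 4 + A + Pm < 4 * g - 4) : Gd g Pm Vm T := by
  refine ⟨hT, ?_⟩
  intro c F X hc hS hL hH hB
  obtain ⟨hcon, l, P, hty, hlen⟩ := hS
  have hvol := hty.vol
  rw [Nat.card_fin] at hvol
  have hcc := Set.ncard_add_ncard_compl X.R
  rw [Nat.card_fin] at hcc
  rcases hA X hL hcon hH hB with h | h
  · have h1 : (X.R.ncard : ℝ) ≤ (3 * Vm : ℕ) := by
      push_cast
      linarith
    have h2 : X.R.ncard ≤ 3 * Vm := by exact_mod_cast h1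
    omega
  · exfalso
    have h5 := reg_F hty ⟨hT, hL⟩ hH
    have h6 : X.B.ncard = P.sum := by
      rw [Part.hl_card hty.hl, hty.per]
    have h7 : X.Rᶜ.ncard = 3 * F := by omega
    rw [h7] at h
    have h8 : 4 * g ≤ 8 + F + Pm := by omega
    have h9 : (4 : ℝ) * g ≤ 8 + F + Pm := by exact_mod_cast h8
    push_cast at h
    have h10 : (0 : ℝ) ≤ F := Nat.cast_nonneg F
    linarith

theorem gd_ev {θ x : ℝ} (h : Num.Par θ x) (a : ℝ) : ∃ C' : ℝ, 0 < C' ∧ ∀ᶠ q in Num.Fth θ, ∀ Pm Vm : ℕ,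
    (Pm : ℝ) ≤ a * Real.log (q : ℕ × ℕ).1 → C' * Real.log q.1 ≤ Vm →
    (q.1 : ℝ) * (({T : Tri (Fin (6 * q.1)) | T ∈ Trn q.1 q.2 ∧ ¬ Gd q.2 Pm Vm T}.ncard : ℕ) : ℝ) ≤
      ((Trn q.1 q.2).ncard : ℕ) := by
  obtain ⟨C1, hC1, hev⟩ := ar_star h (|a| + 1) (by positivity)
  have hθ := h.1
  refine ⟨C1, hC1, ?_⟩
  filter_upwards [hev, TC.win_ev h.1 h.2.1 (|a| + C1) (show (0 : ℝ) < θ / 8 by positivity) 1, RB.ge_ev θ (⌈8 / θ⌉₊ + 1)]
    with q h1 h2 h3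
  intro Pm Vm hP hV
  have hn1 : 1 ≤ q.1 := by omega
  have hn0 : (1 : ℝ) ≤ q.1 := by exact_mod_cast hn1
  have hlog : 0 ≤ Real.log (q.1 : ℝ) := Real.log_nonneg hn0
  obtain ⟨-, -, e1, -, e2⟩ := h2 (2 * q.1) le_rfl (by
    push_cast
    have := mul_nonneg (show 0 ≤ |a| + C1 by positivity) hlog
    linarith)
  have hn4 : 8 < θ * q.1 := by
    have e3 : ((⌈8 / θ⌉₊ + 1 : ℕ) : ℝ) ≤ q.1 := by exact_mod_cast h3
    push_cast at e3
    have e4 : 8 / θ ≤ (⌈8 / θ⌉₊ : ℝ) := Nat.le_ceil _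
    rw [div_le_iff₀ hθ] at e4
    nlinarith
  have e5 : a * Real.log q.1 ≤ |a| * Real.log q.1 := mul_le_mul_of_nonneg_right (le_abs_self _) hlog
  have hg : 4 + C1 * Real.log q.1 + Pm < 4 * q.2 - 4 := by
    rw [abs_le] at e1
    push_cast at e1 e2
    have e7 := e1.1
    nlinarith
  refine le_trans (mul_le_mul_of_nonneg_left ?_ (Nat.cast_nonneg _)) h1
  have h4 : {T : Tri (Fin (6 * q.1)) | T ∈ Trn q.1 q.2 ∧ ¬ Gd q.2 Pm Vm T} ⊆
      {T : Tri (Fin (6 * q.1)) | T ∈ Trn q.1 q.2 ∧ ¬ ArS T ((|a| + 1) * Real.log q.1) (C1 * Real.log q.1)} := by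
    rintro T ⟨hT, hG⟩
    refine ⟨hT, fun hA => hG ?_⟩
    refine gd_of hT (A := C1 * Real.log q.1) (fun S a1 a2 a3 a4 => hA.ar0 S a1 a2 a3 ?_) ?_ hg
    · have a5 : (S.B.ncard : ℝ) ≤ Pm := by exact_mod_cast a4
      nlinarith
    · have h5 := mul_nonneg hC1.le hlog
      linarith
  exact_mod_cast Set.ncard_le_ncard h4 (Set.toFinite _)

end SYS.CF
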