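import Pool.Agent.SYS.CF.Defs

/-!
# SYSS-CF-Inp: the structure `Inp` for large `n`

`TC.cnt_inp` gives the fields `goal`, `term`; `Cst.ex` the field `ex`.
-/

namespace SYS.CF

open Classical SST SYS.CH SYS.CE

theorem inp_ev {θ x : ℝ} (h : Num.Par θ x) {μ κ V1 δ : ℝ} {B : Blk} {M Q A : ℕ → ℕ} {V : ℕ → ℝ}
    (hC : Cst θ x μ κ V1 δ B M Q A V) (τ : ℕ) (a : ℝ) {ε : ℝ} (hε : 0 < ε) : ∀ᶠ q in Num.Fth θ, ∀ Pm Vm : ℕ,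
      (Pm : ℝ) ≤ a * Real.log (q : ℕ × ℕ).1 → (Vm : ℝ) ≤ a * Real.log q.1 →
      Inp q.1 q.2 x κ B (prg M Q) V V1 Pm Vm τ ((q.1 : ℝ) ^ ((τ : ℝ) - 1 + ε) * SST.nu q.1 q.2) := by
  filter_upwards [TC.cnt_inp h a hε τ, hC.ex a] with q h1 h2
  intro Pm Vm hPm hVm
  obtain ⟨h3, h4⟩ := h1 Pm Vm hPm hVm
  refine ⟨hC.v1, ?_, ?_, h3, h4⟩
  · exact mul_nonneg (Real.rpow_nonneg (Nat.cast_nonneg _) _) (RB.nu_nn _ _)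
  · intro X f l p P F c hX hF hP Q hQ
    refine h2 X f l p P F c hX ?_ ?_ Q hQ
    · have h5 : 2 * (q.1 : ℝ) ≤ F + Vm := by exact_mod_cast hF
      linarith
    · have h5 : ((p + P.sum : ℕ) : ℝ) ≤ (Pm : ℝ) := by exact_mod_cast hP
      linarith

end SYS.CF
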