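import Pool.Agent.SYS.CF.B1
import Pool.Agent.SYS.CF.B2
import Pool.Agent.SYS.CF.B3
import Pool.Agent.SYS.US.T2
import Pool.Agent.SYS.S0.Main
import Pool.Agent.SYS.CF.Ev

/-!
# SYSS-CF-Main: the limit of the simple separating systole from `Pair`

PLAN.  `pss_mono`: `HasSSC` is monotone in the bound; `1 ≤ n`: `pss_eq`, `Real.log n ≥ 0`.
`beta_ge`: if `Grw θ β C e` for all `e` then `s0 ≤ β` for the constant `s0` of `XP.s0_main`: `US.thin_of h hg (ε := s0 - β) `-type: if `β < s0` take `ε = (s0 - β) / 2`: `Thin θ (β + ε) (C + ε)`; then almost all triples have a link with `β + ε ≤ s0`, `C + ε ≤ n / log n`, so `CoD T (s0 log n) n x y`, but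
`s0_main` with `δ` small says that few triples have it; the number of all triples is `#Trn (6 n) ^ 2 > 0` (`nu_pos_ev`).
`main`: let `S` be the constant of `Pair`, `s0` of `s0_main`, `c0` of `b3`, `C1` of `ar_star h (4 * S + 4)` (`Area θ (4 S + 4) C1`).  Given `ε ∈ (0, 1)`: `e = min (s0 / 4) 1`, `δ = min (ε / 8) (min (c0 e / 8) (1/8))`, `μ = min 1 (δ s0 / (2 C1))`; `Pair` gives `κ`, `β`, ... with `κ β ≤ 1 + δ`, `s0 ≤ β ≤ S`.  So `κ ≤ (1 + δ) / β`, `κ μ C1 ≤ δ`,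
`κ e ≤ (1 + δ) / 4`.  `β2 = β (1 + δ)`: `κ (β2 + μ C1) ≤ (1 + δ) ^ 2 + δ ≤ 1 + 4 δ < 1 + c0 e` (B3, `C2 = C + 1`); `κ (β2 + e + μ C1) < 2` (B2); for `c < (1 - ε) β` take `s = max c (β / 2 * (1 - ε))`... i.e. any `s` with `c ≤ s < (1 - ε) β`, `0 < s`: `κ (s + μ C1) ≤ (1 - ε) (1 + δ) + δ < 1` (B1), then `pss_mono`.
Apply `US.t2_of`.
-/

namespace SYS.CF

open Classical SST SYS.CH SYS.CE Filter Topology

theorem pss_mono {n g : ℕ} (hn : 1 ≤ n) {c c' : ℝ} (hc : c ≤ c') : PSS c (n, g) ≤ PSS c' (n, g) := by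
  rw [pss_eq hn, pss_eq hn]
  refine div_le_div_of_nonneg_right ?_ (Nat.cast_nonneg _)
  have h1 : {T : Tri (Fin (6 * n)) | T ∈ Trn n g ∧ T.HasSSC (c * Real.log n)} ⊆
      {T : Tri (Fin (6 * n)) | T ∈ Trn n g ∧ T.HasSSC (c' * Real.log n)} := by
    rintro T ⟨hT, w, h1, h2, h3, h4, h5, h6⟩
    have hl : 0 ≤ Real.log (n : ℝ) := Real.log_nonneg (by exact_mod_cast hn)
    exact ⟨hT, w, h1, h2, h3, h4, h5, h6.trans (mul_le_mul_of_nonneg_right hc hl)⟩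
  exact_mod_cast Set.ncard_le_ncard h1 (Set.toFinite _)

theorem beta_ge {θ x : ℝ} (h : Num.Par θ x) {s0 : ℝ} (hs0 : ∀ δ : ℝ, 0 < δ → ∀ᶠ q in RB.Fth θ,
    (({z : Tri (Fin (6 * q.1)) × Fin (6 * q.1) × Fin (6 * q.1) | z.1 ∈ Trn q.1 q.2 ∧
      XP.CoD z.1 (s0 * Real.log q.1) q.1 z.2.1 z.2.2}.ncard : ℕ) : ℝ) ≤ δ * q.1 ^ 2 * (Trn q.1 q.2).ncard) {β C : ℝ}
    (hG : ∀ e : ℝ, 0 < e → e < 1 / 2 → US.Grw θ β C e) : s0 ≤ β := by
  by_contra hcon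
  rw [not_le] at hcon
  have h1 := US.thin_of h hG (ε := (s0 - β) / 2) (by linarith) (1 / 2) (by norm_num)
  have h2 : ∀ᶠ q in Num.Fth θ, (({z : Tri (Fin (6 * (q : ℕ × ℕ).1)) × Fin (6 * q.1) × Fin (6 * q.1) | z.1 ∈ Trn q.1 q.2 ∧
      XP.CoD z.1 (s0 * Real.log q.1) q.1 z.2.1 z.2.2}.ncard : ℕ) : ℝ) ≤ 1 * (q.1 : ℝ) ^ 2 * (Trn q.1 q.2).ncard := hs0 1 one_pos
  have h3 : ∀ᶠ q in Num.Fth θ, (0 : ℝ) < SST.nu (q : ℕ × ℕ).1 q.2 := UP.nu_pos_ev h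
  have h4 := ev_logpow θ (C := C + (s0 - β) / 2) (D := 0) (η := 1) (a := 0) (b := 1) one_pos (by norm_num)
  have : (Num.Fth θ).NeBot := US.fth_neBot h.1.le
  obtain ⟨q, e1, e2, e3, e4, e5, e6⟩ := (h1.and (h2.and (h3.and (h4.and ((ev_ge θ 1).and (ev_log θ 0)))))).exists
  rw [Real.rpow_zero, Real.rpow_one, mul_one, one_mul, add_zero] at e4
  have hn0 : (0 : ℝ) < q.1 := by exact_mod_cast e5
  have hN : (0 : ℝ) < (Trn q.1 q.2).ncard := by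
    rw [← nu_facE]
    exact mul_pos e3 (by exact_mod_cast Nat.factorial_pos _)
  have hsub : {z : Tri (Fin (6 * q.1)) × Fin (6 * q.1) × Fin (6 * q.1) | z.1 ∈ Trn q.1 q.2} ⊆
      {z | z.1 ∈ Trn q.1 q.2 ∧ XP.CoD z.1 (s0 * Real.log q.1) q.1 z.2.1 z.2.2} ∪
      {z | z.1 ∈ Trn q.1 q.2 ∧ ¬ US.Link z.1 z.2.1 z.2.2 ((β + (s0 - β) / 2) * Real.log q.1)
        ((C + (s0 - β) / 2) * Real.log q.1)} := by
    rintro z hz
    by_cases hL : US.Link z.1 z.2.1 z.2.2 ((β + (s0 - β) / 2) * Real.log q.1) ((C + (s0 - β) / 2) * Real.log q.1)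
    · left
      obtain ⟨Y, f1, f2, f3, f4, f5, f6⟩ := hL
      refine ⟨hz, Y, f1, f2, f3, f4, f5.trans ?_, f6.trans e4⟩
      exact mul_le_mul_of_nonneg_right (by linarith) e6
    · exact Or.inr ⟨hz, hL⟩
  have hc := (Nat.cast_le (α := ℝ)).2 ((Set.ncard_le_ncard hsub (Set.toFinite _)).trans (Set.ncard_union_le _ _))
  rw [tri_pairs, Nat.cast_add] at hc
  have hc2 := hc.trans (add_le_add e2 e1)
  have h5 : 0 < (q.1 : ℝ) ^ 2 * ((Trn q.1 q.2).ncard : ℝ) := by positivity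
  linarith

/-- All inputs of T2; `B2` and `B3` hold for all volume constants. -/
theorem t2_all {θ x : ℝ} (h : Num.Par θ x) (hP : Pair θ x) : ∃ L : ℝ, 0 < L ∧ ∀ ε : ℝ, 0 < ε → ε < 1 → ∃ β C β2 e : ℝ,
    0 < β ∧ β < β2 ∧ 0 < e ∧ β2 + e ≤ L ∧ (∀ e' : ℝ, 0 < e' → e' < 1 / 2 → US.Grw θ β C e') ∧ (∀ C', US.B2 θ (β2 + e) C') ∧
    (∀ C', US.B3 θ β2 C' e) ∧ ∀ c : ℝ, c < (1 - ε) * β → Tendsto (PSS c) (Num.Fth θ) (𝓝 0) := by
  obtain ⟨S, hS, hP⟩ := hP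
  obtain ⟨s0, hs0, hs0m⟩ := XP.s0_main h
  obtain ⟨c0, hc0, hb3⟩ := b3 h
  obtain ⟨C1, hC1, hA'⟩ := ar_star h (4 * S + 4) (by linarith)
  have hA : Area θ (4 * S + 4) C1 := hA'
  refine ⟨2 * S + 2, by linarith, fun ε hε hε1 => ?_⟩
  -- the constants
  set e : ℝ := min (s0 / 4) 1 with he
  have he0 : 0 < e := lt_min (by linarith) one_pos
  have he1 : e ≤ 1 := min_le_right _ _
  have hes : e ≤ s0 / 4 := min_le_left _ _
  set δ : ℝ := min (ε / 8) (min (c0 * e / 8) (1 / 8)) with hδ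
  have hce : 0 < c0 * e := mul_pos hc0 he0
  have hδ0 : 0 < δ := lt_min (by linarith) (lt_min (by linarith) (by norm_num))
  have hδ1 : δ ≤ ε / 8 := min_le_left _ _
  have hδ2 : δ ≤ c0 * e / 8 := (min_le_right _ _).trans (min_le_left _ _)
  have hδ3 : δ ≤ 1 / 8 := (min_le_right _ _).trans (min_le_right _ _)
  set μ : ℝ := min 1 (δ * s0 / (2 * C1)) with hμ
  have hμ0 : 0 < μ := lt_min one_pos (by positivity)
  have hμ1 : μ ≤ 1 := min_le_left _ _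
  have hμ2 : μ * (2 * C1) ≤ δ * s0 := by
    have := min_le_right 1 (δ * s0 / (2 * C1))
    rw [← hμ, le_div_iff₀ (by positivity)] at this
    exact this
  obtain ⟨κ, V1, dl, β, C, B, M, Q, A, V, hC, hβ0, hβS, hκβ, hG⟩ := hP μ δ hμ0 hμ1 hδ0
  have hβs : s0 ≤ β := beta_ge h hs0m hG
  have hκ0 : 0 ≤ κ := hC.ka
  -- `κ μ C1 ≤ δ`
  have k1 : κ * (μ * C1) ≤ δ := by
    have e1 : κ * s0 ≤ 1 + δ := (mul_le_mul_of_nonneg_left hβs hκ0).trans hκβ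
    have e2 : κ * (μ * (2 * C1)) ≤ κ * (δ * s0) := mul_le_mul_of_nonneg_left hμ2 hκ0
    have e3 : κ * (δ * s0) = δ * (κ * s0) := by ring
    have e4 : δ * (κ * s0) ≤ δ * (1 + δ) := mul_le_mul_of_nonneg_left e1 hδ0.le
    nlinarith
  -- `κ e ≤ (1 + δ) / 4`
  have k2 : κ * e ≤ (1 + δ) / 4 := by
    have e1 : κ * s0 ≤ 1 + δ := (mul_le_mul_of_nonneg_left hβs hκ0).trans hκβ
    have e2 : κ * e ≤ κ * (s0 / 4) := mul_le_mul_of_nonneg_left hes hκ0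
    linarith
  have k3 : κ * (β * (1 + δ)) ≤ (1 + δ) * (1 + δ) := by
    have : κ * (β * (1 + δ)) = κ * β * (1 + δ) := by ring
    rw [this]
    exact mul_le_mul_of_nonneg_right hκβ (by linarith)
  refine ⟨β, C, β * (1 + δ), e, hβ0, by nlinarith, he0, by nlinarith, hG, fun C' => ?_, fun C' => ?_, ?_⟩
  · refine b2 h hC1 hA hC (s := β * (1 + δ) + e) (by positivity) ?_ ?_ _
    · nlinarith
    · have : κ * (β * (1 + δ) + e + μ * C1) = κ * (β * (1 + δ)) + κ * e + κ * (μ * C1) := by ring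
      rw [this]
      nlinarith
  · refine hb3 hC1 hA hC (s := β * (1 + δ)) (by positivity) ?_ he0 ?_ _
    · nlinarith
    · have : κ * (β * (1 + δ) + μ * C1) = κ * (β * (1 + δ)) + κ * (μ * C1) := by ring
      rw [this]
      nlinarith
  · intro c hc
    set s : ℝ := max c ((1 - ε) * β / 2) with hs
    have hs0' : 0 < s := lt_max_of_lt_right (by have : 0 < (1 - ε) * β := mul_pos (by linarith) hβ0; linarith)
    have hs1 : s < (1 - ε) * β := max_lt hc (by have : 0 < (1 - ε) * β := mul_pos (by linarith) hβ0; linarith)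
    have hcs : c ≤ s := le_max_left _ _
    have hb1 : Tendsto (PSS s) (Num.Fth θ) (𝓝 0) := by
      refine b1 h hC1 hA hC hs0' ?_ ?_
      · nlinarith
      · have e1 : κ * (s + μ * C1) = κ * s + κ * (μ * C1) := by ring
        rw [e1]
        have e2 : κ * s ≤ κ * ((1 - ε) * β) := mul_le_mul_of_nonneg_left hs1.le hκ0
        have e3 : κ * ((1 - ε) * β) = (1 - ε) * (κ * β) := by ring
        have e4 : (1 - ε) * (κ * β) ≤ (1 - ε) * (1 + δ) := mul_le_mul_of_nonneg_left hκβ (by linarith)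
        nlinarith
    refine tendsto_of_tendsto_of_tendsto_of_le_of_le' tendsto_const_nhds hb1 ?_ ?_
    · filter_upwards [ev_ge θ 1] with q hq
      rw [show q = (q.1, q.2) from rfl, pss_eq hq]
      positivity
    · filter_upwards [ev_ge θ 1] with q hq
      rw [show q = (q.1, q.2) from rfl]
      exact pss_mono hq hcs

/-- The input of `US.t2_of`. -/
theorem t2_inp {θ x : ℝ} (h : Num.Par θ x) (hP : Pair θ x) : ∀ ε : ℝ, 0 < ε → ε < 1 → ∃ β C β2 C2 e : ℝ, 0 < β ∧ β < β2 ∧ C < C2 ∧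
    (∀ e' : ℝ, 0 < e' → e' < 1 / 2 → US.Grw θ β C e') ∧ US.B2 θ (β2 + e) (C2 + 3 * e) ∧ US.B3 θ β2 C2 e ∧
    ∀ c : ℝ, c < (1 - ε) * β → Tendsto (PSS c) (Num.Fth θ) (𝓝 0) := by
  intro ε hε hε1
  obtain ⟨L, -, H⟩ := t2_all h hP
  obtain ⟨β, C, β2, e, h1, h2, h3, -, h5, h6, h7, h8⟩ := H ε hε hε1
  exact ⟨β, C, β2, C + 1, e, h1, h2, by linarith, h5, h6 _, h7 _, h8⟩

theorem t2_pair {θ x : ℝ} (h : Num.Par θ x) (hP : Pair θ x) : ∃ S : ℝ, 0 < S ∧ SSCLim θ S :=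
  US.t2_of h (t2_inp h hP)

end SYS.CF
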