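import Pool.Agent.SYS.CF.Main
import Pool.Agent.SYS.US.T3

/-!
# SYS-CF-T2: the inputs of T2 in the form of `US.T2In`
-/

namespace SYS.CF

theorem t2in_of_pair {θ x : ℝ} (h : Num.Par θ x) (hP : Pair θ x) : US.T2In θ := by
  obtain ⟨L, hL, H⟩ := t2_all h hP
  refine ⟨L, hL, fun C1 _ ε hε hε1 => ?_⟩
  obtain ⟨β, C, β2, e, h1, h2, h3, h4, h5, h6, h7, h8⟩ := H ε hε hε1
  exact ⟨β, β2, e, h1, h2, h3.le, h4, fun e' he he' => ⟨C, h5 e' he he'⟩, h6 _, h7 _, h8⟩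

end SYS.CF
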