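import Pool.Agent.SYS.CF.Gdw

/-!
# SYSS-CF-Win: choice of the number of blocks and of the sizes for large `n`
-/

namespace SYS.CF

open Classical SST SYS.CH SYS.CE Filter Topology

/-- `log n` is large. -/
theorem win_log (θ : ℝ) (C : ℝ) : ∀ᶠ q in Num.Fth θ, C ≤ Real.log (q : ℕ × ℕ).1 := by
  have h1 : Tendsto (fun q : ℕ × ℕ => Real.log (q.1 : ℝ)) (Num.Fth θ) atTop := Real.tendsto_log_atTop.comp (RB.fst_atTop θ)
  exact h1.eventually_ge_atTop C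

/-- Number of blocks `J` and sizes `Pm`, `Vm`. -/
theorem win {θ x : ℝ} (h : Num.Par θ x) (Q : ℕ → ℕ) (μ L0 A0 b0 : ℝ) {δ : ℝ} (hδ : 0 < δ) (K : ℕ) : ∃ a : ℝ, 0 < a ∧
    ∀ᶠ q in Num.Fth θ, ∃ J Pm Vm : ℕ, bnd Q μ (L0 * Real.log (q : ℕ × ℕ).1) (A0 * Real.log q.1) + 3 * δ ≤ δ * (J - 1) ∧
      (∀ m : ℕ, (m : ℝ) ≤ b0 * Real.log q.1 → m + K * J ≤ Pm) ∧ (Pm : ℝ) ≤ a * Real.log q.1 ∧ (Vm : ℝ) ≤ a * Real.log q.1 ∧
      (J : ℝ) ≤ a * Real.log q.1 ∧ (q.1 : ℝ) * (({T : Tri (Fin (6 * q.1)) | T ∈ Trn q.1 q.2 ∧ ¬ Gd q.2 Pm Vm T}.ncard : ℕ) : ℝ) ≤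
        ((Trn q.1 q.2).ncard : ℕ) := by
  obtain ⟨j0, hj0⟩ : ∃ j0 : ℝ, j0 = (|L0| + |μ * A0| + 64 * ((Q 0 : ℝ) + 2) + 3 * δ) / δ + 3 := ⟨_, rfl⟩
  have hj0p : 0 < j0 := by
    rw [hj0]
    positivity
  obtain ⟨a1, ha1⟩ : ∃ a1 : ℝ, a1 = |b0| + K * j0 := ⟨_, rfl⟩
  have ha1p : 0 ≤ a1 := by
    rw [ha1]
    positivity
  obtain ⟨C', hC', hev⟩ := gd_ev h a1
  refine ⟨j0 + a1 + C' + 1, by positivity, ?_⟩
  filter_upwards [hev, win_log θ 1] with q h1 hlog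
  obtain ⟨l, hl⟩ : ∃ l : ℝ, l = Real.log (q : ℕ × ℕ).1 := ⟨_, rfl⟩
  rw [← hl] at h1 hlog ⊢
  obtain ⟨b, hb⟩ : ∃ b : ℝ, b = bnd Q μ (L0 * l) (A0 * l) := ⟨_, rfl⟩
  rw [← hb]
  have hble : b ≤ (|L0| + |μ * A0| + 64 * ((Q 0 : ℝ) + 2)) * l := by
    rw [hb]
    unfold bnd
    have e1 : L0 * l ≤ |L0| * l := mul_le_mul_of_nonneg_right (le_abs_self _) (by linarith)
    have e2 : μ * A0 * l ≤ |μ * A0| * l := mul_le_mul_of_nonneg_right (le_abs_self _) (by linarith)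
    have e3 : 64 * ((Q 0 : ℝ) + 2) ≤ 64 * ((Q 0 : ℝ) + 2) * l := by
      have : (0 : ℝ) ≤ 64 * ((Q 0 : ℝ) + 2) := by positivity
      nlinarith
    nlinarith
  have hJle : ((⌈(b + 3 * δ) / δ⌉₊ + 2 : ℕ) : ℝ) ≤ j0 * l := by
    rcases le_or_gt ((b + 3 * δ) / δ) 0 with hneg | hpos
    · rw [Nat.ceil_eq_zero.2 hneg]
      have e1 : (3 : ℝ) ≤ j0 := by
        rw [hj0]
        have : 0 ≤ (|L0| + |μ * A0| + 64 * ((Q 0 : ℝ) + 2) + 3 * δ) / δ := by positivity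
        linarith
      push_cast
      nlinarith
    · have e1 := (Nat.ceil_lt_add_one hpos.le).le
      push_cast
      have e2 : (b + 3 * δ) / δ ≤ ((|L0| + |μ * A0| + 64 * ((Q 0 : ℝ) + 2) + 3 * δ) / δ) * l := by
        rw [div_mul_eq_mul_div, div_le_div_iff_of_pos_right hδ]
        nlinarith
      have e3 : j0 * l = ((|L0| + |μ * A0| + 64 * ((Q 0 : ℝ) + 2) + 3 * δ) / δ) * l + 3 * l := by
        rw [hj0]
        ring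
      rw [e3]
      linarith
  refine ⟨⌈(b + 3 * δ) / δ⌉₊ + 2, ⌊|b0| * l⌋₊ + K * (⌈(b + 3 * δ) / δ⌉₊ + 2), ⌈C' * l⌉₊, ?_, ?_, ?_, ?_, ?_, ?_⟩
  · have e1 := Nat.le_ceil ((b + 3 * δ) / δ)
    rw [div_le_iff₀ hδ] at e1
    push_cast
    nlinarith
  · intro m hm
    have e1 : (m : ℝ) ≤ |b0| * l := hm.trans (mul_le_mul_of_nonneg_right (le_abs_self _) (by linarith))
    have e2 := Nat.le_floor e1
    omega
  · have e1 : ((⌊|b0| * l⌋₊ : ℕ) : ℝ) ≤ |b0| * l := Nat.floor_le (by positivity)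
    have e2 : (K : ℝ) * ((⌈(b + 3 * δ) / δ⌉₊ + 2 : ℕ) : ℝ) ≤ K * (j0 * l) := mul_le_mul_of_nonneg_left hJle (Nat.cast_nonneg _)
    rw [Nat.cast_add, Nat.cast_mul]
    have e3 : 0 ≤ (j0 + C' + 1) * l := by positivity
    rw [ha1]
    nlinarith
  · have e1 := (Nat.ceil_lt_add_one (show 0 ≤ C' * l by positivity)).le
    have e3 : 0 ≤ (j0 + a1) * l := by positivity
    nlinarith
  · have e3 : 0 ≤ (a1 + C' + 1) * l := by positivity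
    nlinarith
  · refine h1 _ _ ?_ (Nat.le_ceil _)
    have e1 : ((⌊|b0| * l⌋₊ : ℕ) : ℝ) ≤ |b0| * l := Nat.floor_le (by positivity)
    have e2 : (K : ℝ) * ((⌈(b + 3 * δ) / δ⌉₊ + 2 : ℕ) : ℝ) ≤ K * (j0 * l) := mul_le_mul_of_nonneg_left hJle (Nat.cast_nonneg _)
    rw [Nat.cast_add, Nat.cast_mul, ha1]
    nlinarith

/-- Number of all triangulations. -/
theorem win_nu (n g : ℕ) : SST.nu n g * (6 * n).factorial = ((Trn n g).ncard : ℕ) := by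
  have hfac : (0 : ℝ) < ((6 * n).factorial : ℝ) := by exact_mod_cast Nat.factorial_pos _
  unfold SST.nu
  field_simp

/-- `exp (κ bnd)` is a power of `n` and a constant. -/
theorem win_exp (Q : ℕ → ℕ) (κ μ L0 A0 : ℝ) {n : ℕ} (hn : 1 ≤ n) :
    Real.exp (κ * bnd Q μ (L0 * Real.log n) (A0 * Real.log n)) =
      (n : ℝ) ^ (κ * (L0 + μ * A0)) * Real.exp (κ * (64 * ((Q 0 : ℝ) + 2))) := by
  have hn0 : (0 : ℝ) < n := by exact_mod_cast hn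
  rw [Real.rpow_def_of_pos hn0, ← Real.exp_add]
  congr 1
  unfold bnd
  ring

end SYS.CF
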